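import Pool.Agent.Morse.Struct

/-!
Morse link numbers (MP_cd2f9b_nt): coefficients.
-/

set_option autoImplicit false

open PowerSeries Finset

namespace Pool.Agent.Morse

/-- product of the first `j` odd numbers -/
def od (j : ℕ) : ℕ := ∏ i ∈ range j, (2 * i + 1)

lemma od_succ (j : ℕ) : od (j + 1) = od j * (2 * j + 1) := prod_range_succ _ _

lemma od_odd (j : ℕ) : Odd (od j) := by
  induction j with
  | zero => exact odd_one
  | succ j ih => rw [od_succ]; exact ih.mul ⟨j, rfl⟩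

lemma coeff_cb_pow (n j : ℕ) : (od j : ℤ) * coeff n (cb * (2 * X * cb ^ 2) ^ j) =
    n.centralBinom * n.descFactorial j := by
  have hrec : ∀ j, cb * (2 * X * cb ^ 2) ^ (j + 1) =
      X * (C (2 : ℤ) * (cb * (2 * X * cb ^ 2) ^ j) + C (4 : ℤ) * (cb * (2 * X * cb ^ 2) ^ (j + 1))) := by
    intro j
    have h2 : C (2 : ℤ) = (2 : ℤ⟦X⟧) := by rw [map_ofNat]
    have h4 : C (4 : ℤ) = (4 : ℤ⟦X⟧) := by rw [map_ofNat]
    rw [h2, h4]
    linear_combination (2 * X * cb * (2 * X * cb ^ 2) ^ j) * cb_sq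
  induction n generalizing j with
  | zero =>
    cases j with
    | zero => simp [od, cb]
    | succ j =>
      rw [hrec, coeff_zero_X_mul]
      simp
  | succ n ih =>
    cases j with
    | zero => simp [od, cb]
    | succ j =>
      rw [hrec, coeff_succ_X_mul, map_add, coeff_C_mul, coeff_C_mul]
      have h1 := ih j
      have h2 := ih (j + 1)
      have h3 : ((n + 1 : ℕ) : ℤ) * ((n + 1).centralBinom : ℤ) = 2 * (2 * n + 1) * n.centralBinom := by
        exact_mod_cast Nat.succ_mul_centralBinom_succ n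
      have h4 : (((n + 1).descFactorial (j + 1) : ℕ) : ℤ) = (n + 1) * n.descFactorial j := by
        rw [Nat.succ_descFactorial_succ]
        push_cast
        ring
      have h5 : ((n.descFactorial (j + 1) : ℕ) : ℤ) = (n - j) * n.descFactorial j := by
        rw [Nat.descFactorial_succ]
        rcases le_or_gt j n with h | h
        · rw [Nat.cast_mul, Nat.cast_sub h]
        · rw [Nat.descFactorial_eq_zero_iff_lt.2 h]
          simp
      rw [h5] at h2
      rw [h4, od_succ]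
      rw [od_succ] at h2
      push_cast at h1 h2 h3 ⊢
      linear_combination (2 * (2 * (j : ℤ) + 1)) * h1 + 4 * h2 - (n.descFactorial j : ℤ) * h3

lemma coeff_sig (φ : ℤ⟦X⟧) (n : ℕ) :
    coeff n (cb * sig (2 * X * cb ^ 2) constantCoeff_Y φ) =
      ∑ j ∈ range (n + 1), coeff j φ * coeff n (cb * (2 * X * cb ^ 2) ^ j) := by
  have h1 : ∃ r : ℤ⟦X⟧, φ = ∑ j ∈ range (n + 1), C (coeff j φ) * X ^ j + X ^ (n + 1) * r := by
    have : (X : ℤ⟦X⟧) ^ (n + 1) ∣ φ - ∑ j ∈ range (n + 1), C (coeff j φ) * X ^ j := by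
      rw [X_pow_dvd_iff]
      intro m hm
      rw [map_sub, map_sum, sub_eq_zero]
      simp_rw [coeff_C_mul, coeff_X_pow]
      rw [Finset.sum_eq_single m]
      · simp
      · intro b _ hb
        rw [if_neg (fun h => hb h.symm), mul_zero]
      · intro h
        exact absurd (mem_range.2 hm) h
    obtain ⟨r, hr⟩ := this
    exact ⟨r, by rw [← hr]; ring⟩
  obtain ⟨r, hr⟩ := h1
  have h2 : sig (2 * X * cb ^ 2) constantCoeff_Y φ =
      ∑ j ∈ range (n + 1), C (coeff j φ) * (2 * X * cb ^ 2) ^ j +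
        X ^ (n + 1) * ((2 * cb ^ 2) ^ (n + 1) * sig (2 * X * cb ^ 2) constantCoeff_Y r) := by
    conv_lhs => rw [hr]
    rw [map_add, map_sum, map_mul, map_pow, sig_X]
    congr 1
    · refine Finset.sum_congr rfl fun j _ => ?_
      rw [map_mul, map_pow, sig_X, sig_C]
    · have h5 : (2 * X * cb ^ 2 : ℤ⟦X⟧) ^ (n + 1) = X ^ (n + 1) * (2 * cb ^ 2) ^ (n + 1) := by
        rw [← mul_pow]
        congr 1
        ring
      rw [h5, mul_assoc]
  rw [h2, mul_add, map_add, Finset.mul_sum, map_sum]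
  have h3 : coeff n (cb * (X ^ (n + 1) * ((2 * cb ^ 2) ^ (n + 1) *
      sig (2 * X * cb ^ 2) constantCoeff_Y r))) = 0 := by
    have : (X : ℤ⟦X⟧) ^ (n + 1) ∣ cb * (X ^ (n + 1) * ((2 * cb ^ 2) ^ (n + 1) *
        sig (2 * X * cb ^ 2) constantCoeff_Y r)) :=
      ⟨cb * ((2 * cb ^ 2) ^ (n + 1) * sig (2 * X * cb ^ 2) constantCoeff_Y r), by ring⟩
    exact (X_pow_dvd_iff.1 this) n (Nat.lt_succ_self n)
  rw [h3, add_zero]
  refine Finset.sum_congr rfl fun j _ => ?_
  rw [mul_left_comm, coeff_C_mul]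

/-- the coefficient form of the structure theorem -/
theorem coeff_struct {K : ℕ → ℤ⟦X⟧} (hK : Tails K) : ∃ H φ ψ : ℕ → ℤ,
    φ 0 = 1 + 2 * ψ 0 ∧ φ 1 = 1 + 2 * ψ 1 ∧ (∀ j, φ (j + 2) = 2 * ψ (j + 2)) ∧
    ∀ n, coeff n (K 0) = catalan n + 4 * ∑ j ∈ range (n + 1), φ j *
      coeff n (cb * (2 * X * cb ^ 2) ^ j) - 4 ^ (n + 1) * H n := by
  obtain ⟨H, φ, ψ, -, hφ, hL⟩ := struct hK
  have h2 : (2 : ℤ⟦X⟧) = C (2 : ℤ) := by rw [map_ofNat]
  have h4 : (4 : ℤ⟦X⟧) = C (4 : ℤ) := by rw [map_ofNat]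
  refine ⟨fun n => coeff n H, fun n => coeff n φ, fun n => coeff n ψ, ?_, ?_, fun j => ?_,
    fun n => ?_⟩
  · show coeff 0 φ = 1 + 2 * coeff 0 ψ
    rw [hφ, h2, map_add, map_add, coeff_C_mul, coeff_one, coeff_X]
    simp
  · show coeff 1 φ = 1 + 2 * coeff 1 ψ
    rw [hφ, h2, map_add, map_add, coeff_C_mul, coeff_one, coeff_X]
    simp
  · show coeff (j + 2) φ = 2 * coeff (j + 2) ψ
    rw [hφ, h2, map_add, map_add, coeff_C_mul, coeff_one, coeff_X]
    simp
  · rw [hL, map_sub, map_add, h4, mul_assoc, coeff_C_mul, coeff_C_mul, coeff_rescale,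
      coeff_sig, cat, coeff_mk]
    ring

end Pool.Agent.Morse
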