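import Pool.Agent.Morse.Val

/-!
Morse link numbers (MP_cd2f9b_nt): Dyck words.
-/

set_option autoImplicit false

open Finset PowerSeries

namespace Pool.Agent.Morse

/-- The weight of a list of steps that starts at height `h`: an up-step which starts at height
`k` has weight `(2k+1)²`, a down-step has weight `1`. -/
def wt : ℤ → List DyckStep → ℤ
  | _, [] => 1
  | h, DyckStep.U :: l => (2 * h + 1) ^ 2 * wt (h + 1) l
  | h, DyckStep.D :: l => wt (h - 1) l

/-- The Morse link number `L n`. -/
def morse (n : ℕ) : ℤ := ∑ p : {p : DyckWord // p.semilength = n}, wt 0 p.1.toList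

lemma wt_append (l₁ l₂ : List DyckStep) (h : ℤ) :
    wt h (l₁ ++ l₂) = wt h l₁ * wt (h + l₁.count DyckStep.U - l₁.count DyckStep.D) l₂ := by
  induction l₁ generalizing h with
  | nil => simp [wt]
  | cons s l ih =>
    cases s with
    | U =>
      rw [List.cons_append, wt, wt, ih, List.count_cons_self,
        List.count_cons_of_ne (by decide)]
      push_cast
      rw [mul_assoc, show h + 1 + (l.count DyckStep.U : ℤ) - l.count DyckStep.D =
        h + ((l.count DyckStep.U : ℤ) + 1) - l.count DyckStep.D by ring]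
    | D =>
      rw [List.cons_append, wt, wt, ih, List.count_cons_self,
        List.count_cons_of_ne (by decide)]
      push_cast
      rw [show h - 1 + (l.count DyckStep.U : ℤ) - l.count DyckStep.D =
        h + (l.count DyckStep.U : ℤ) - ((l.count DyckStep.D : ℤ) + 1) by ring]

lemma wt_dyck (p : DyckWord) (l : List DyckStep) (h : ℤ) :
    wt h (p.toList ++ l) = wt h p.toList * wt h l := by
  rw [wt_append, p.count_U_eq_count_D, add_sub_cancel_right]

/-- weight of a binary tree -/
def tw : ℤ → BinaryTree Unit → ℤ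
  | _, BinaryTree.nil => 1
  | h, BinaryTree.node _ l r => (2 * h + 1) ^ 2 * tw (h + 1) l * tw h r

lemma wt_ofTree (t : BinaryTree Unit) (h : ℤ) : wt h (DyckWord.ofTree t).toList = tw h t := by
  induction t generalizing h with
  | nil => rfl
  | node a l r ihl ihr =>
    rw [DyckWord.ofTree, tw]
    show wt h ((DyckWord.ofTree l).nest.toList ++ (DyckWord.ofTree r).toList) = _
    rw [wt_dyck, ihr]
    show wt h (DyckStep.U :: ((DyckWord.ofTree l).toList ++ [DyckStep.D])) * tw h r = _
    rw [wt, wt_dyck, ihl, wt, wt, mul_one, mul_assoc]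

/-- the sum over all trees -/
def PP (h : ℤ) (n : ℕ) : ℤ := ∑ t ∈ BinaryTree.treesOfNumNodesEq n, tw h t

lemma PP_zero (h : ℤ) : PP h 0 = 1 := by
  rw [PP, BinaryTree.treesOfNumNodesEq_zero, Finset.sum_singleton, tw]

lemma PP_succ (h : ℤ) (n : ℕ) :
    PP h (n + 1) = (2 * h + 1) ^ 2 * ∑ ij ∈ antidiagonal n, PP (h + 1) ij.1 * PP h ij.2 := by
  rw [PP, BinaryTree.treesOfNumNodesEq_succ, Finset.sum_biUnion, Finset.mul_sum]
  · refine Finset.sum_congr rfl fun ij _ => ?_
    rw [Finset.sum_map, Finset.sum_product, PP, PP, Finset.sum_mul_sum, Finset.mul_sum]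
    refine Finset.sum_congr rfl fun l _ => ?_
    rw [Finset.mul_sum]
    refine Finset.sum_congr rfl fun r _ => ?_
    show tw h (BinaryTree.node () l r) = _
    rw [tw, mul_assoc]
  · simp_rw [Set.PairwiseDisjoint, Set.Pairwise, disjoint_left]
    aesop

lemma morse_eq (n : ℕ) : morse n = PP 0 n := by
  rw [morse, PP, ← Finset.sum_coe_sort (BinaryTree.treesOfNumNodesEq n) (tw 0)]
  refine Fintype.sum_equiv (DyckWord.equivTreesOfNumNodesEq n) _ _ fun p => ?_
  rw [DyckWord.equivTreesOfNumNodesEq_apply_coe, ← wt_ofTree, DyckWord.ofTree_toTree]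

/-- the tails -/
noncomputable def KK (h : ℕ) : ℤ⟦X⟧ := PowerSeries.mk fun n => PP h n

lemma tails_KK : Tails KK := by
  intro h
  ext n
  cases n with
  | zero => simp [KK, PP_zero]
  | succ n =>
    rw [map_add, show C (((2 * h + 1 : ℕ) : ℤ) ^ 2) * X * KK (h + 1) * KK h =
      X * (C (((2 * h + 1 : ℕ) : ℤ) ^ 2) * (KK (h + 1) * KK h)) by ring, coeff_succ_X_mul,
      coeff_C_mul, coeff_mul, coeff_one, if_neg (Nat.succ_ne_zero n), zero_add, KK, KK, coeff_mk,
      PP_succ]
    simp only [coeff_mk]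
    push_cast
    rfl

theorem morse_coeff (n : ℕ) : coeff n (KK 0) = morse n := by
  rw [morse_eq, KK, coeff_mk]
  rfl

theorem morse_val : ∃ α : ℤ_[2], ∀ n : ℕ,
    (n : ℤ_[2]) ≠ α → (Nat.digits 2 n).sum + ((n : ℤ_[2]) - α).valuation < 2 * n →
      Ident morse α n := by
  obtain ⟨α, h⟩ := main_val tails_KK
  refine ⟨α, fun n h1 h2 => ?_⟩
  have h3 := h n h1 h2
  have h4 : (fun n => coeff n (KK 0)) = morse := funext morse_coeff
  rw [h4] at h3
  exact h3

end Pool.Agent.Morse
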