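import Mathlib

/-!
Morse link numbers (MP_cd2f9b_nt): the even part.

The series `s ∈ z ℤ[z²]⟦X⟧` with `4 s(z) = X (F(-z) - F(z))`, `F(z) (1 + s(z+2)) = (z+1)² (1 - s(z))`.
-/

set_option autoImplicit false

open PowerSeries

namespace Pool.Agent.Morse

/-- fixed point lemma for power series -/
theorem exists_fix {R : Type*} [CommRing R] (Φ : R⟦X⟧ → R⟦X⟧) (P : R⟦X⟧ → Prop) (h0 : P 0)
    (hP : ∀ f, P f → P (Φ f)) (hlim : ∀ f, (∀ n : ℕ, ∃ g, P g ∧ X ^ n ∣ f - g) → P f)
    (hc : ∀ f g (n : ℕ), P f → P g → X ^ n ∣ f - g → X ^ (n + 1) ∣ Φ f - Φ g) :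
    ∃ f, P f ∧ Φ f = f := by
  set F : ℕ → R⟦X⟧ := fun k => Φ^[k] 0 with hF
  have hFs : ∀ k, F (k + 1) = Φ (F k) := fun k => Function.iterate_succ_apply' Φ k 0
  have hPF : ∀ k, P (F k) := by
    intro k
    induction k with
    | zero => exact h0
    | succ k ih => rw [hFs]; exact hP _ ih
  have hstep : ∀ k, (X : R⟦X⟧) ^ k ∣ F (k + 1) - F k := by
    intro k
    induction k with
    | zero => rw [pow_zero]; exact one_dvd _
    | succ k ih =>
      rw [hFs (k + 1), hFs k]
      have := hc _ _ k (hPF (k + 1)) (hPF k) ih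
      rw [hFs k] at this
      exact this
  have hst : ∀ m k, (X : R⟦X⟧) ^ k ∣ F (k + m) - F k := by
    intro m
    induction m with
    | zero => intro k; rw [add_zero, sub_self]; exact dvd_zero _
    | succ m ih =>
      intro k
      have h1 := ih k
      have h2 : (X : R⟦X⟧) ^ k ∣ F (k + m + 1) - F (k + m) :=
        (pow_dvd_pow X (Nat.le_add_right k m)).trans (hstep (k + m))
      have h3 := dvd_add h2 h1
      rw [sub_add_sub_cancel] at h3
      exact h3
  set f : R⟦X⟧ := PowerSeries.mk (fun n => coeff n (F (n + 1))) with hf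
  have hfF : ∀ k, (X : R⟦X⟧) ^ k ∣ f - F k := by
    intro k
    rw [X_pow_dvd_iff]
    intro n hn
    rw [map_sub, hf, coeff_mk]
    obtain ⟨m, rfl⟩ := Nat.exists_eq_add_of_le (Nat.succ_le_of_lt hn)
    have h1 := (X_pow_dvd_iff.1 (hst m (n + 1))) n (Nat.lt_succ_self n)
    rw [map_sub] at h1
    rw [← neg_sub, neg_eq_zero]
    exact h1
  have hPf : P f := hlim f fun n => ⟨F n, hPF n, hfF n⟩
  refine ⟨f, hPf, ?_⟩
  have : ∀ k, (X : R⟦X⟧) ^ (k + 1) ∣ Φ f - f := by
    intro k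
    have h1 := hc _ _ k hPf (hPF k) (hfF k)
    rw [← hFs] at h1
    have h2 := dvd_sub h1 (hfF (k + 1))
    rw [sub_sub_sub_cancel_right] at h2
    exact h2
  rw [← sub_eq_zero]
  ext n
  rw [map_zero]
  exact (X_pow_dvd_iff.1 (this n)) n (Nat.lt_succ_self n)

open scoped Polynomial in
/-- the substitution `z ↦ q` on polynomials -/
noncomputable abbrev sb (q : ℤ[X]) : ℤ[X] →+* ℤ[X] := Polynomial.compRingHom q

open scoped Polynomial in
lemma sb_dvd (q r p : ℤ[X]) : q - r ∣ sb q p - sb r p := by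
  rw [Polynomial.coe_compRingHom_apply, Polynomial.coe_compRingHom_apply, Polynomial.comp,
    Polynomial.comp, ← Polynomial.eval_map, ← Polynomial.eval_map]
  exact Polynomial.sub_dvd_eval_sub _ _ _

lemma exists_mul_of_dvd_coeff {R : Type*} [CommRing R] (a : R) (f : R⟦X⟧)
    (h : ∀ n, a ∣ coeff n f) : ∃ g, f = C a * g := by
  choose c hc using h
  refine ⟨PowerSeries.mk c, ?_⟩
  ext n
  rw [coeff_C_mul, coeff_mk, hc]

open scoped Polynomial in
/-- `z ↦ -z` -/
noncomputable abbrev nu : ℤ[X]⟦X⟧ →+* ℤ[X]⟦X⟧ := PowerSeries.map (sb (-Polynomial.X))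

open scoped Polynomial in
/-- `z ↦ z + 2` -/
noncomputable abbrev th : ℤ[X]⟦X⟧ →+* ℤ[X]⟦X⟧ := PowerSeries.map (sb (Polynomial.X + 2))

open scoped Polynomial in
lemma sb_X (p : ℤ[X]) : sb Polynomial.X p = p := by
  rw [Polynomial.coe_compRingHom_apply, Polynomial.comp_X]

open scoped Polynomial in
lemma sb_nn (p : ℤ[X]) : sb (-Polynomial.X) (sb (-Polynomial.X) p) = p := by
  rw [Polynomial.coe_compRingHom_apply, Polynomial.coe_compRingHom_apply, Polynomial.comp_assoc]
  simp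

open scoped Polynomial in
lemma nu_nu (f : ℤ[X]⟦X⟧) : nu (nu f) = f := by
  ext1 n
  rw [coeff_map, coeff_map, sb_nn]

open scoped Polynomial in
lemma four_ne : (4 : ℤ[X]⟦X⟧) ≠ 0 := by
  have h : (4 : ℤ[X]⟦X⟧) = PowerSeries.C (4 : ℤ[X]) := by
    rw [map_ofNat]
  rw [h, Ne, ← map_zero (PowerSeries.C (R := ℤ[X]))]
  intro h2
  have h3 := PowerSeries.C_injective h2
  have h4 := congrArg (fun p => Polynomial.eval 0 p) h3
  norm_num at h4

open scoped Polynomial in
lemma exists_unit (f : ℤ[X]⟦X⟧) (h : constantCoeff f = 1) : ∃ v, f * v = 1 := by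
  have : IsUnit f := by
    rw [PowerSeries.isUnit_iff_constantCoeff, h]
    exact isUnit_one
  exact this.exists_right_inv

open scoped Polynomial in
/-- odd in `z`, without constant term -/
def Good (f : ℤ[X]⟦X⟧) : Prop := constantCoeff f = 0 ∧ nu f = -f

open scoped Polynomial in
lemma constantCoeff_th {f : ℤ[X]⟦X⟧} (h : constantCoeff f = 0) : constantCoeff (th f) = 0 := by
  rw [← coeff_zero_eq_constantCoeff_apply, coeff_map, coeff_zero_eq_constantCoeff_apply, h, map_zero]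

open scoped Polynomial in
lemma exists_F {f : ℤ[X]⟦X⟧} (h : constantCoeff f = 0) :
    ∃ F : ℤ[X]⟦X⟧, F * (1 + th f) = PowerSeries.C ((Polynomial.X + 1) ^ 2) * (1 - f) := by
  obtain ⟨v, hv⟩ := exists_unit (1 + th f) (by rw [map_add, map_one, constantCoeff_th h, add_zero])
  refine ⟨PowerSeries.C ((Polynomial.X + 1) ^ 2) * (1 - f) * v, ?_⟩
  linear_combination (PowerSeries.C ((Polynomial.X + 1) ^ 2) * (1 - f)) * hv

open scoped Polynomial in
lemma div4 {f F : ℤ[X]⟦X⟧} (h : Good f)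
    (hF : F * (1 + th f) = PowerSeries.C ((Polynomial.X + 1) ^ 2) * (1 - f)) :
    ∃ f', Good f' ∧ 4 * f' = PowerSeries.X * (nu F - F) := by
  obtain ⟨h0, hodd⟩ := h
  obtain ⟨k, hk⟩ : ∃ k : ℤ[X]⟦X⟧, th f - f = PowerSeries.C 2 * k := by
    refine exists_mul_of_dvd_coeff 2 _ fun n => ?_
    rw [map_sub, coeff_map]
    have h1 := sb_dvd (Polynomial.X + 2) Polynomial.X (coeff n f)
    rw [sb_X, add_sub_cancel_left] at h1
    exact h1
  obtain ⟨v, hv⟩ := exists_unit (1 + f) (by rw [map_add, map_one, h0, add_zero])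
  have hC2 : PowerSeries.C (2 : ℤ[X]) = 2 := by rw [map_ofNat]
  rw [hC2] at hk
  have hth : th f = f + 2 * k := by linear_combination hk
  rw [hth] at hF
  set a : ℤ[X]⟦X⟧ := PowerSeries.C Polynomial.X with ha
  have hCa : PowerSeries.C ((Polynomial.X + 1) ^ 2 : ℤ[X]) = (a + 1) ^ 2 := by
    rw [map_pow, map_add, map_one]
  rw [hCa] at hF
  set G := v * (-(a ^ 2 + 1) * f + a * (1 - f) - F * k) with hG
  have hFG : F = a ^ 2 + 1 + 2 * G := by
    rw [hG]
    linear_combination v * hF - (F - (a ^ 2 + 1)) * hv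
  have hnua : nu a = -a := by
    rw [ha, PowerSeries.map_C, ← map_neg]
    congr 1
    rw [Polynomial.coe_compRingHom_apply, Polynomial.X_comp]
  have hnuF : nu F - F = 2 * (nu G - G) := by
    have : nu F = a ^ 2 + 1 + 2 * nu G := by
      conv_lhs => rw [hFG]
      rw [map_add, map_add, map_pow, hnua, map_one, map_mul, map_ofNat]
      ring
    rw [this]
    linear_combination (-1 : ℤ[X]⟦X⟧) * hFG
  obtain ⟨G', hG'⟩ : ∃ G' : ℤ[X]⟦X⟧, nu G - G = PowerSeries.C 2 * G' := by
    refine exists_mul_of_dvd_coeff 2 _ fun n => ?_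
    rw [map_sub, coeff_map]
    have h1 := sb_dvd (-Polynomial.X) Polynomial.X (coeff n G)
    rw [sb_X] at h1
    refine dvd_trans ⟨-Polynomial.X, ?_⟩ h1
    ring
  rw [hC2] at hG'
  have h4 : nu F - F = 4 * G' := by
    rw [hnuF, hG']
    ring
  have hnuG' : nu G' = -G' := by
    have h5 : nu (nu F - F) = 4 * nu G' := by rw [h4, map_mul, map_ofNat]
    rw [map_sub, nu_nu] at h5
    have h6 : 4 * (nu G' + G') = 0 := by linear_combination (-1 : ℤ[X]⟦X⟧) * h5 - h4
    rcases mul_eq_zero.1 h6 with h7 | h7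
    · exact absurd h7 four_ne
    · linear_combination h7
  refine ⟨PowerSeries.X * G', ⟨by rw [map_mul, constantCoeff_X, zero_mul], ?_⟩, ?_⟩
  · rw [map_mul, PowerSeries.map_X, hnuG']
    ring
  · rw [h4]
    ring

open scoped Polynomial in
/-- the even series -/
theorem exists_even : ∃ s F : ℤ[X]⟦X⟧, Good s ∧
    F * (1 + th s) = PowerSeries.C ((Polynomial.X + 1) ^ 2) * (1 - s) ∧
    4 * s = PowerSeries.X * (nu F - F) := by
  classical
  have key : ∀ f : ℤ[X]⟦X⟧, Good f → ∃ f' F : ℤ[X]⟦X⟧, Good f' ∧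
      F * (1 + th f) = PowerSeries.C ((Polynomial.X + 1) ^ 2) * (1 - f) ∧
      4 * f' = PowerSeries.X * (nu F - F) := by
    intro f hf
    obtain ⟨F, hF⟩ := exists_F hf.1
    obtain ⟨f', h1, h2⟩ := div4 hf hF
    exact ⟨f', F, h1, hF, h2⟩
  set Φ : ℤ[X]⟦X⟧ → ℤ[X]⟦X⟧ := fun f => if h : Good f then (key f h).choose else 0 with hΦ
  have hΦs : ∀ f, Good f → ∃ F, Good (Φ f) ∧
      F * (1 + th f) = PowerSeries.C ((Polynomial.X + 1) ^ 2) * (1 - f) ∧
      4 * Φ f = PowerSeries.X * (nu F - F) := by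
    intro f hf
    simp only [hΦ, dif_pos hf]
    exact (key f hf).choose_spec
  obtain ⟨s, hs, hfix⟩ := exists_fix Φ Good ⟨map_zero _, by rw [map_zero, neg_zero]⟩
    (fun f hf => by obtain ⟨F, h, -⟩ := hΦs f hf; exact h)
    (fun f hlim => by
      refine ⟨?_, ?_⟩
      · obtain ⟨g, hg, hd⟩ := hlim 1
        have := (X_pow_dvd_iff.1 hd) 0 one_pos
        rw [map_sub, coeff_zero_eq_constantCoeff_apply, coeff_zero_eq_constantCoeff_apply, hg.1,
          sub_zero] at this
        exact this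
      · ext1 n
        obtain ⟨g, hg, hd⟩ := hlim (n + 1)
        have h1 := (X_pow_dvd_iff.1 hd) n (Nat.lt_succ_self n)
        rw [map_sub, sub_eq_zero] at h1
        have h2 := congrArg (coeff n) hg.2
        rw [coeff_map, map_neg] at h2
        rw [coeff_map, map_neg, h1, h2])
    (fun f g n hf hg hd => by
      obtain ⟨F, -, hF, hF4⟩ := hΦs f hf
      obtain ⟨G, -, hG, hG4⟩ := hΦs g hg
      obtain ⟨v, hv⟩ := exists_unit (1 + th f)
        (by rw [map_add, map_one, constantCoeff_th hf.1, add_zero])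
      obtain ⟨e, he⟩ := hd
      have hthe : th f - th g = PowerSeries.X ^ n * th e := by
        rw [← map_sub, he, map_mul, map_pow, PowerSeries.map_X]
      have hFG : F - G = PowerSeries.X ^ n *
          (-(v * (PowerSeries.C ((Polynomial.X + 1) ^ 2) * e + G * th e))) := by
        linear_combination v * hF - v * hG - (F - G) * hv -
          v * PowerSeries.C ((Polynomial.X + 1) ^ 2) * he - v * G * hthe
      set w := -(v * (PowerSeries.C ((Polynomial.X + 1) ^ 2) * e + G * th e)) with hw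
      have hnu : nu F - nu G = PowerSeries.X ^ n * nu w := by
        rw [← map_sub, hFG, map_mul, map_pow, PowerSeries.map_X]
      have h4 : 4 * (Φ f - Φ g) = PowerSeries.X ^ (n + 1) * (nu w - w) := by
        linear_combination hF4 - hG4 + PowerSeries.X * hnu - PowerSeries.X * hFG
      rw [X_pow_dvd_iff]
      intro m hm
      have h5 : coeff m (4 * (Φ f - Φ g)) = 0 := by
        rw [h4]
        exact (X_pow_dvd_iff.1 (Dvd.intro _ rfl)) m hm
      have h6 : (4 : ℤ[X]⟦X⟧) = PowerSeries.C (4 : ℤ[X]) := by rw [map_ofNat]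
      rw [h6, coeff_C_mul] at h5
      rcases mul_eq_zero.1 h5 with h7 | h7
      · exact absurd h7 (by norm_num)
      · exact h7)
  obtain ⟨F, -, hF, h4⟩ := hΦs s hs
  rw [hfix] at h4
  exact ⟨s, F, hs, hF, h4⟩

end Pool.Agent.Morse
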