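import Pool.Agent.Morse.Numeric

/-!
Morse link numbers (MP_cd2f9b_nt): final statements.
-/

set_option autoImplicit false

open Finset PowerSeries

namespace Pool.Agent.Morse

/-- the sum of the binary digits -/
abbrev s2 (n : ℕ) : ℕ := (Nat.digits 2 n).sum

/-- The structure formula. -/
def Formula (L : ℕ → ℤ) (α : ℤ_[2]) : Prop := ∀ n : ℕ, ∃ (u : ℤ_[2]ˣ) (H : ℤ),
  ((L n - catalan n : ℤ) : ℤ_[2]) = 2 ^ (s2 n + 2) * u * ((n : ℤ_[2]) - α) - 4 ^ (n + 1) * (H : ℤ_[2])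

lemma exists_unit_mul {x y : ℤ_[2]} (h : ‖x‖ = ‖y‖) : ∃ u : ℤ_[2]ˣ, x = u * y := by
  by_cases hy : y = 0
  · rw [hy, norm_zero, norm_eq_zero] at h
    exact ⟨1, by rw [h, hy, mul_zero]⟩
  · have hx : x ≠ 0 := by
      intro hx
      rw [hx, norm_zero] at h
      exact hy (norm_eq_zero.1 h.symm)
    have h3 : x.valuation = y.valuation := by
      rw [norm_eq_half_pow hx, norm_eq_half_pow hy] at h
      exact pow_right_injective₀ (by norm_num) (by norm_num) h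
    obtain ⟨a, ha⟩ : ∃ a : ℤ_[2]ˣ, x = a * ((2 : ℕ) : ℤ_[2]) ^ y.valuation :=
      ⟨_, by rw [← h3]; exact PadicInt.unitCoeff_spec hx⟩
    obtain ⟨b, hb⟩ : ∃ b : ℤ_[2]ˣ, y = b * ((2 : ℕ) : ℤ_[2]) ^ y.valuation :=
      ⟨_, PadicInt.unitCoeff_spec hy⟩
    set v := ((2 : ℕ) : ℤ_[2]) ^ y.valuation
    have h4 : ((b⁻¹ : ℤ_[2]ˣ) : ℤ_[2]) * b = 1 := Units.inv_mul b
    refine ⟨a * b⁻¹, ?_⟩
    rw [Units.val_mul]
    linear_combination ha - a * ((b⁻¹ : ℤ_[2]ˣ) : ℤ_[2]) * hb - (a : ℤ_[2]) * v * h4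

theorem morse_formula : ∃ α : ℤ_[2], Formula morse α := by
  obtain ⟨H, φ, ψ, h0, h1, h2, hL⟩ := coeff_struct tails_KK
  obtain ⟨α, hα⟩ := exists_alpha h1 h2
  refine ⟨α, fun n => ?_⟩
  have h4 : ((morse n - catalan n : ℤ) : ℤ_[2]) =
      4 * (n.centralBinom : ℤ_[2]) * gg φ n - 4 ^ (n + 1) * (H n : ℤ_[2]) := by
    rw [← morse_coeff, hL n, gg]
    push_cast
    rw [Finset.mul_sum, Finset.mul_sum]
    have h5 : ∀ j, (4 : ℤ_[2]) * (φ j * ((coeff n (cb * (2 * X * cb ^ 2) ^ j) : ℤ) : ℤ_[2])) =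
        4 * n.centralBinom * (φ j * wj j * n.descFactorial j) := by
      intro j
      have h6 := congrArg (fun z : ℤ => (z : ℤ_[2])) (coeff_cb_pow n j)
      push_cast at h6
      linear_combination (4 * φ j * wj j : ℤ_[2]) * h6 -
        (4 * φ j * ((coeff n (cb * (2 * X * cb ^ 2) ^ j) : ℤ) : ℤ_[2])) * wj_spec j
    rw [Finset.sum_congr rfl fun j _ => h5 j]
    ring
  obtain ⟨u, hu⟩ := exists_unit_mul (hα n)
  obtain ⟨v, hv⟩ : ∃ v : ℤ_[2]ˣ, ((n.centralBinom : ℕ) : ℤ_[2]) = v * 2 ^ s2 n := by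
    refine exists_unit_mul ?_
    rw [norm_centralBinom, norm_two_pow]
  refine ⟨v * u, H n, ?_⟩
  rw [h4, hu, hv, Units.val_mul]
  ring

lemma norm_main (n : ℕ) (u : ℤ_[2]ˣ) {y : ℤ_[2]} (hy : y ≠ 0) :
    ‖2 ^ (s2 n + 2) * (u : ℤ_[2]) * y‖ = (1 / 2 : ℝ) ^ (s2 n + y.valuation + 2) := by
  rw [norm_mul, norm_mul, norm_two_pow, PadicInt.norm_units, mul_one, norm_eq_half_pow hy,
    ← pow_add]
  congr 1
  ring

lemma norm_err (n : ℕ) (H : ℤ) : ‖(4 : ℤ_[2]) ^ (n + 1) * (H : ℤ_[2])‖ ≤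
    (1 / 2 : ℝ) ^ (2 * n + 2) := by
  have h7 : (4 : ℤ_[2]) ^ (n + 1) = 2 ^ (2 * n + 2) := by
    rw [show 2 * n + 2 = 2 * (n + 1) by ring, pow_mul]
    norm_num
  rw [norm_mul, h7, norm_two_pow]
  exact mul_le_of_le_one_right (by positivity) (PadicInt.norm_le_one _)

lemma ident_of {L : ℕ → ℤ} {α : ℤ_[2]} (hF : Formula L α) {n : ℕ} (hn : (n : ℤ_[2]) ≠ α)
    (hlt : s2 n + ((n : ℤ_[2]) - α).valuation < 2 * n) : Ident L α n := by
  obtain ⟨u, H, h⟩ := hF n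
  have hne : (n : ℤ_[2]) - α ≠ 0 := sub_ne_zero.2 hn
  have h5 := norm_main n u hne
  have h6 : ‖(4 : ℤ_[2]) ^ (n + 1) * (H : ℤ_[2])‖ <
      (1 / 2 : ℝ) ^ (s2 n + ((n : ℤ_[2]) - α).valuation + 2) :=
    (norm_err n H).trans_lt (pow_lt_pow_right_of_lt_one₀ (by norm_num) (by norm_num) (by omega))
  have h7 : ‖((L n - catalan n : ℤ) : ℤ_[2])‖ =
      (1 / 2 : ℝ) ^ (s2 n + ((n : ℤ_[2]) - α).valuation + 2) := by
    rw [h, sub_eq_add_neg]
    rw [PadicInt.norm_add_eq_max_of_ne (by rw [norm_neg, h5]; exact h6.ne'), norm_neg, h5,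
      max_eq_left h6.le]
  obtain ⟨h8, h9⟩ := valuation_eq_of_norm h7
  rw [valuation_intCast] at h9
  refine ⟨hn, fun h10 => h8 ?_, h9⟩
  rw [h10, sub_self, Int.cast_zero]

lemma val_of {L : ℕ → ℤ} {α : ℤ_[2]} (hF : Formula L α) {n : ℕ} (hx : L n ≠ catalan n)
    (hlt : padicValInt 2 (L n - catalan n) < 2 * n + 2) : (n : ℤ_[2]) ≠ α ∧
      padicValInt 2 (L n - catalan n) = s2 n + ((n : ℤ_[2]) - α).valuation + 2 := by
  obtain ⟨u, H, h⟩ := hF n
  have hx0 : ((L n - catalan n : ℤ) : ℤ_[2]) ≠ 0 := by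
    intro h0
    apply hx
    have : (L n - catalan n : ℤ) = 0 := by exact_mod_cast h0
    linarith
  have h1 := norm_eq_half_pow hx0
  rw [valuation_intCast] at h1
  have h2 : ‖(4 : ℤ_[2]) ^ (n + 1) * (H : ℤ_[2])‖ < ‖((L n - catalan n : ℤ) : ℤ_[2])‖ := by
    rw [h1]
    exact (norm_err n H).trans_lt
      (pow_lt_pow_right_of_lt_one₀ (by norm_num) (by norm_num) (by omega))
  have h3 : 2 ^ (s2 n + 2) * (u : ℤ_[2]) * ((n : ℤ_[2]) - α) =
      ((L n - catalan n : ℤ) : ℤ_[2]) + 4 ^ (n + 1) * (H : ℤ_[2]) := by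
    rw [h]
    ring
  have h4 : ‖2 ^ (s2 n + 2) * (u : ℤ_[2]) * ((n : ℤ_[2]) - α)‖ =
      (1 / 2 : ℝ) ^ padicValInt 2 (L n - catalan n) := by
    rw [h3, PadicInt.norm_add_eq_max_of_ne h2.ne', max_eq_left h2.le, h1]
  have hne : (n : ℤ_[2]) - α ≠ 0 := by
    intro h0
    rw [h0, mul_zero, norm_zero] at h4
    have : (0 : ℝ) < (1 / 2) ^ padicValInt 2 (L n - catalan n) := by positivity
    linarith
  rw [norm_main n u hne] at h4
  exact ⟨sub_ne_zero.1 hne, (pow_right_injective₀ (by norm_num) (by norm_num) h4).symm⟩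

/-- `2 n - s2 n` is the 2-adic valuation of `(2n)!` -/
lemma two_mul_sub (n : ℕ) : s2 n + padicValNat 2 (Nat.factorial (2 * n)) = 2 * n := by
  have h := sub_one_mul_padicValNat_factorial (p := 2) (2 * n)
  have h3 : (Nat.digits 2 (2 * n)).sum = s2 n := by
    rcases Nat.eq_zero_or_pos n with rfl | hn
    · simp [s2]
    · rw [Nat.digits_base_mul (by norm_num) hn, List.sum_cons, zero_add]
  have h4 := Nat.digit_sum_le 2 (2 * n)
  rw [h3] at h h4
  omega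

lemma fac_mono {n m : ℕ} (h : n ≤ m) : padicValNat 2 (Nat.factorial (2 * n)) ≤
    padicValNat 2 (Nat.factorial (2 * m)) := by
  have hd : Nat.factorial (2 * n) ∣ Nat.factorial (2 * m) := Nat.factorial_dvd_factorial (by omega)
  obtain ⟨c, hc⟩ := hd
  have hc0 : c ≠ 0 := by
    rintro rfl
    rw [mul_zero] at hc
    exact Nat.factorial_ne_zero _ hc
  rw [hc, padicValNat.mul (Nat.factorial_ne_zero _) hc0]
  exact Nat.le_add_right _ _

/-- at a failure, `n` is very close to `α` -/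
lemma dvd_of_not {L : ℕ → ℤ} {α : ℤ_[2]} (hF : Formula L α) {n : ℕ} (h : ¬ Ident L α n) :
    (2 : ℤ_[2]) ^ (2 * n - s2 n) ∣ (n : ℤ_[2]) - α := by
  by_cases hn : (n : ℤ_[2]) = α
  · rw [hn, sub_self]
    exact dvd_zero _
  · have h1 : ¬ s2 n + ((n : ℤ_[2]) - α).valuation < 2 * n := fun h2 => h (ident_of hF hn h2)
    have hne : (n : ℤ_[2]) - α ≠ 0 := sub_ne_zero.2 hn
    have h2 := PadicInt.unitCoeff_spec hne
    have h3 : ((2 : ℕ) : ℤ_[2]) = 2 := by norm_num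
    rw [h3] at h2
    rw [h2]
    exact (pow_dvd_pow 2 (by omega)).mul_left _

lemma int_dvd {k : ℕ} {a : ℤ} (h : (2 : ℤ_[2]) ^ k ∣ (a : ℤ_[2])) : (2 : ℤ) ^ k ∣ a := by
  have h3 : ((2 : ℕ) : ℤ_[2]) = 2 := by norm_num
  rw [← h3, PadicInt.pow_p_dvd_int_iff] at h
  exact_mod_cast h

/-- two failures are very far apart -/
lemma sparse {L : ℕ → ℤ} {α : ℤ_[2]} (hF : Formula L α) {n m : ℕ} (hnm : n < m)
    (h1 : ¬ Ident L α n) (h2 : ¬ Ident L α m) : n + 2 ^ (2 * n - s2 n) ≤ m := by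
  have d1 := dvd_of_not hF h1
  have d2 := dvd_of_not hF h2
  have hle : 2 * n - s2 n ≤ 2 * m - s2 m := by
    have e1 := two_mul_sub n
    have e2 := two_mul_sub m
    have e3 := fac_mono hnm.le
    omega
  have d3 := dvd_sub ((pow_dvd_pow (2 : ℤ_[2]) hle).trans d2) d1
  rw [sub_sub_sub_cancel_right] at d3
  have d4 : (2 : ℤ) ^ (2 * n - s2 n) ∣ ((m - n : ℕ) : ℤ) := by
    apply int_dvd
    push_cast [Nat.cast_sub hnm.le]
    exact d3
  have d5 : 2 ^ (2 * n - s2 n) ∣ m - n := by exact_mod_cast d4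
  have := Nat.le_of_dvd (by omega) d5
  omega

/-- the residue of `α` -/
lemma alpha_mod {α : ℤ_[2]} (hF : Formula morse α) : ∃ γ : ℤ_[2], α = 855 + 1024 * γ := by
  have hv := val_343
  have hne : morse 343 ≠ catalan 343 := by
    intro h
    rw [h, sub_self, padicValInt.zero] at hv
    omega
  obtain ⟨h1, h2⟩ := val_of hF (n := 343) hne (by rw [hv]; norm_num)
  rw [hv] at h2
  have h3 : s2 343 = 6 := by
    simp [s2]
  rw [h3] at h2
  have h4 : (((343 : ℕ) : ℤ_[2]) - α).valuation = 9 := by omega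
  have hne' : ((343 : ℕ) : ℤ_[2]) - α ≠ 0 := sub_ne_zero.2 h1
  have h5 := PadicInt.unitCoeff_spec hne'
  have h6 : ((2 : ℕ) : ℤ_[2]) = 2 := by norm_num
  rw [h4, h6] at h5
  obtain ⟨e, he⟩ : ∃ e : ℤ_[2], ((PadicInt.unitCoeff hne' : ℤ_[2]ˣ) : ℤ_[2]) = 1 + 2 * e := by
    rcases two_dvd_or ((PadicInt.unitCoeff hne' : ℤ_[2]ˣ) : ℤ_[2]) with hd | hd
    · exfalso
      rw [← pow_one (2 : ℤ_[2])] at hd
      have h7 := norm_le_of_dvd hd
      rw [PadicInt.norm_units] at h7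
      norm_num at h7
    · obtain ⟨d, hd⟩ := hd
      exact ⟨d - 1, by linear_combination hd⟩
  rw [he] at h5
  refine ⟨-1 - e, ?_⟩
  push_cast at h5
  linear_combination (-1 : ℤ_[2]) * h5

/-- no failure below 855 -/
lemma ident_small {α : ℤ_[2]} (hF : Formula morse α) {n : ℕ} (h2 : 2 ≤ n) (hn : n ≤ 854) :
    Ident morse α n := by
  by_contra hcon
  have hd := dvd_of_not hF hcon
  obtain ⟨γ, hγ⟩ := alpha_mod hF
  have key : ∀ k : ℕ, k ≤ 10 → k ≤ 2 * n - s2 n → (2 : ℤ) ^ k ∣ (n : ℤ) - 855 := by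
    intro k hk hk2
    apply int_dvd
    push_cast
    have e1 : (2 : ℤ_[2]) ^ k ∣ (n : ℤ_[2]) - α := (pow_dvd_pow 2 hk2).trans hd
    have e2 : (2 : ℤ_[2]) ^ k ∣ 1024 * γ := by
      have : (1024 : ℤ_[2]) = 2 ^ 10 := by norm_num
      rw [this]
      exact (pow_dvd_pow 2 hk).mul_right _
    have e3 : (n : ℤ_[2]) - 855 = ((n : ℤ_[2]) - α) + 1024 * γ := by
      rw [hγ]
      ring
    rw [e3]
    exact dvd_add e1 e2
  rcases Nat.lt_or_ge n 6 with h6 | h6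
  · interval_cases n
    · have := key 3 (by norm_num) (by simp [s2])
      norm_num at this
    · have := key 4 (by norm_num) (by simp [s2])
      norm_num at this
    · have := key 3 (by norm_num) (by simp [s2])
      norm_num at this
    · have := key 3 (by norm_num) (by simp [s2])
      norm_num at this
  · have e1 := two_mul_sub n
    have e2 := two_mul_sub 6
    have e3 := fac_mono h6
    have e4 : s2 6 = 2 := by simp [s2]
    have e5 := key 10 le_rfl (by omega)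
    have e6 : (2 : ℤ) ^ 10 = 1024 := by norm_num
    rw [e6] at e5
    omega

lemma eq_of_ident {α β : ℤ_[2]} (hF : Formula morse α) {N : ℕ}
    (h : ∀ n : ℕ, N ≤ n → Ident morse β n) : β = α := by
  by_contra hne
  have hδ : α - β ≠ 0 := sub_ne_zero.2 fun h => hne h.symm
  have h2 : ((2 : ℕ) : ℤ_[2]) = 2 := by norm_num
  set v := (α - β).valuation with hv
  obtain ⟨u, hu⟩ : ∃ u : ℤ_[2]ˣ, α - β = u * 2 ^ v := by
    refine ⟨PadicInt.unitCoeff hδ, ?_⟩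
    have := PadicInt.unitCoeff_spec hδ
    rw [h2] at this
    exact this
  have ha := PadicInt.appr_spec (v + 2) α
  rw [Ideal.mem_span_singleton, h2] at ha
  obtain ⟨c, hc⟩ := ha
  set a := PadicInt.appr α (v + 2)
  set n := a + 2 ^ (v + 1) + 2 ^ (v + 2) * (N + v + 2) with hn
  have hnN : N + v + 2 ≤ n := by
    have h3 : N + v + 2 ≤ 2 ^ (v + 2) * (N + v + 2) := Nat.le_mul_of_pos_left _ (by positivity)
    rw [hn]
    exact h3.trans (Nat.le_add_left _ _)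
  have e1 : (n : ℤ_[2]) - α = 2 ^ (v + 1) * (1 + 2 * ((N + v + 2 : ℕ) - c)) := by
    rw [hn]
    push_cast
    linear_combination (-1 : ℤ_[2]) * hc
  have e2 : ‖(n : ℤ_[2]) - α‖ = (1 / 2 : ℝ) ^ (v + 1) := by
    rw [e1, norm_mul, norm_two_pow, norm_one_add, mul_one]
  obtain ⟨e3, e4⟩ := valuation_eq_of_norm e2
  have e5 : ‖(n : ℤ_[2]) - β‖ = (1 / 2 : ℝ) ^ v := by
    have e6 : (n : ℤ_[2]) - β = ((n : ℤ_[2]) - α) + (α - β) := by ring
    have e7 : ‖α - β‖ = (1 / 2 : ℝ) ^ v := norm_eq_half_pow hδ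
    have e8 : (1 / 2 : ℝ) ^ (v + 1) < (1 / 2 : ℝ) ^ v :=
      pow_lt_pow_right_of_lt_one₀ (by norm_num) (by norm_num) (by omega)
    rw [e6, PadicInt.norm_add_eq_max_of_ne (by rw [e2, e7]; exact e8.ne), e2, e7,
      max_eq_right e8.le]
  obtain ⟨-, e6⟩ := valuation_eq_of_norm e5
  have hs := Nat.digit_sum_le 2 n
  have i1 := ident_of hF (n := n) (sub_ne_zero.1 e3) (by
    rw [e4]
    show (Nat.digits 2 n).sum + (v + 1) < 2 * n
    omega)
  have i2 := h n (by omega)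
  have j1 := i1.2.2
  have j2 := i2.2.2
  rw [j1, e4, e6] at j2
  omega

end Pool.Agent.Morse
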