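import Pool.Agent.Morse.Even

/-!
Morse link numbers (MP_cd2f9b_nt): the relation between the weighted Catalan series and the even
part.
-/

set_option autoImplicit false

open PowerSeries

namespace Pool.Agent.Morse

open scoped Polynomial in
/-- evaluation at `z = 2h`, and `X ↦ 4X` -/
noncomputable def ev (h : ℤ) : ℤ[X]⟦X⟧ →+* ℤ⟦X⟧ :=
  (PowerSeries.rescale (4 : ℤ)).comp (PowerSeries.map (Polynomial.evalRingHom (2 * h)))

open scoped Polynomial in
lemma coeff_ev (h : ℤ) (f : ℤ[X]⟦X⟧) (n : ℕ) :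
    coeff n (ev h f) = 4 ^ n * (coeff n f).eval (2 * h) := by
  rw [ev, RingHom.comp_apply, coeff_rescale, coeff_map, Polynomial.coe_evalRingHom]

open scoped Polynomial in
lemma ev_X (h : ℤ) : ev h X = 4 * X := by
  ext n
  rw [coeff_ev, coeff_X]
  have h4 : (4 : ℤ⟦X⟧) = C (4 : ℤ) := by rw [map_ofNat]
  rw [h4, coeff_C_mul, coeff_X]
  split_ifs with hn
  · subst hn
    simp
  · simp

open scoped Polynomial in
lemma ev_C (h : ℤ) (p : ℤ[X]) : ev h (C p) = C (p.eval (2 * h)) := by
  rw [ev, RingHom.comp_apply, map_C, Polynomial.coe_evalRingHom]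
  ext n
  rw [coeff_rescale, coeff_C]
  split_ifs with hn
  · subst hn
    simp
  · simp

open scoped Polynomial in
lemma ev_nu (h : ℤ) (f : ℤ[X]⟦X⟧) : ev h (nu f) = ev (-h) f := by
  ext n
  rw [coeff_ev, coeff_ev, coeff_map, Polynomial.coe_compRingHom_apply, Polynomial.eval_comp]
  simp

open scoped Polynomial in
lemma ev_th (h : ℤ) (f : ℤ[X]⟦X⟧) : ev h (th f) = ev (h + 1) f := by
  ext n
  rw [coeff_ev, coeff_ev, coeff_map, Polynomial.coe_compRingHom_apply, Polynomial.eval_comp]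
  simp only [Polynomial.eval_add, Polynomial.eval_X, Polynomial.eval_ofNat]
  congr 2
  ring

/-- The system satisfied by the even parts. -/
theorem exists_system : ∃ S Φ : ℤ → ℤ⟦X⟧, (∀ h, Φ h * (1 + S (h + 1)) = C ((2 * h + 1) ^ 2) * (1 - S h)) ∧
    (∀ h, S h = X * (Φ (-h) - Φ h)) ∧ (∀ h, S (-h) = -S h) ∧
    (∀ h, constantCoeff (S h) = 0) ∧
    ∃ H : ℤ⟦X⟧, constantCoeff H = 1 ∧ S 1 = -(8 * X * rescale 4 H) := by
  obtain ⟨s, F, ⟨hs0, hodd⟩, hF, h4⟩ := exists_even
  have hS4 : ∀ h, ev h s = X * (ev (-h) F - ev h F) := by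
    intro h
    have h1 := congrArg (ev h) h4
    rw [map_mul, map_mul, map_ofNat, ev_X, map_sub, ev_nu] at h1
    have h2 : (4 : ℤ⟦X⟧) * (ev h s - X * (ev (-h) F - ev h F)) = 0 := by linear_combination h1
    have h5 : (4 : ℤ⟦X⟧) ≠ 0 := by
      have h6 : (4 : ℤ⟦X⟧) = C (4 : ℤ) := by rw [map_ofNat]
      rw [h6, Ne, ← map_zero (C (R := ℤ))]
      intro h7
      have := C_injective h7
      norm_num at this
    rcases mul_eq_zero.1 h2 with h7 | h7
    · exact absurd h7 h5
    · linear_combination h7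
  have hFe : ∀ h, ev h F * (1 + ev (h + 1) s) = C ((2 * h + 1) ^ 2) * (1 - ev h s) := by
    intro h
    have h1 := congrArg (ev h) hF
    rw [map_mul, map_add, map_one, ev_th, map_mul, ev_C, map_sub, map_one] at h1
    simpa using h1
  have hc : ∀ h, constantCoeff (ev h s) = 0 := by
    intro h
    rw [← coeff_zero_eq_constantCoeff_apply, coeff_ev, coeff_zero_eq_constantCoeff_apply, hs0]
    simp
  have hcF : ∀ h, constantCoeff (ev h F) = (2 * h + 1) ^ 2 := by
    intro h
    have := congrArg constantCoeff (hFe h)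
    rw [map_mul, map_add, map_one, hc, add_zero, mul_one, map_mul, constantCoeff_C, map_sub,
      map_one, hc, sub_zero, mul_one] at this
    exact this
  refine ⟨fun h => ev h s, fun h => ev h F, hFe, hS4, fun h => ?_, hc, ?_⟩
  · show ev (-h) s = -ev h s
    rw [← ev_nu, hodd, map_neg]
  · -- the coefficients of `s` are odd polynomials, so their values at `2` are even
    have hev : ∀ n, ∃ c : ℤ, (coeff n s).eval (2 * (1 : ℤ)) = -2 * c := by
      intro n
      have h1 := congrArg (coeff n) hodd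
      rw [coeff_map, Polynomial.coe_compRingHom_apply, map_neg] at h1
      have h0 : (coeff n s).eval 0 = 0 := by
        have h2 := congrArg (fun p => Polynomial.eval 0 p) h1
        simp only [Polynomial.eval_comp, Polynomial.eval_neg, Polynomial.eval_X, neg_zero] at h2
        omega
      have h3 := Polynomial.sub_dvd_eval_sub (2 * (1 : ℤ)) 0 (coeff n s)
      rw [h0, sub_zero, sub_zero] at h3
      obtain ⟨c, hc'⟩ := h3
      exact ⟨-c, by rw [hc']; ring⟩
    choose c hc' using hev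
    refine ⟨PowerSeries.mk fun n => c (n + 1), ?_, ?_⟩
    · rw [← coeff_zero_eq_constantCoeff_apply, coeff_mk]
      have h1 := congrArg (coeff 1) (hS4 1)
      rw [coeff_ev, show (1 : ℕ) = 0 + 1 from rfl, coeff_succ_X_mul, map_sub,
        coeff_zero_eq_constantCoeff_apply, coeff_zero_eq_constantCoeff_apply, hcF, hcF, hc'] at h1
      norm_num at h1
      linarith
    · ext n
      cases n with
      | zero =>
        rw [coeff_zero_eq_constantCoeff_apply, hc]
        simp
      | succ n =>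
        have h8 : -(8 * X * rescale 4 (PowerSeries.mk fun n => c (n + 1))) =
            X * (C (-8 : ℤ) * rescale 4 (PowerSeries.mk fun n => c (n + 1))) := by
          have : C (-8 : ℤ) = (-8 : ℤ⟦X⟧) := by rw [map_neg, map_ofNat]
          rw [this]
          ring
        rw [h8, coeff_succ_X_mul, coeff_C_mul, coeff_rescale, coeff_mk, coeff_ev, hc']
        ring

/-- a family of tails of the continued fraction -/
def Tails (K : ℕ → ℤ⟦X⟧) : Prop :=
  ∀ h : ℕ, K h = 1 + C (((2 * h + 1 : ℕ) : ℤ) ^ 2) * X * K (h + 1) * K h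

theorem key_relation {K : ℕ → ℤ⟦X⟧} (hK : Tails K) {S Φ : ℤ → ℤ⟦X⟧}
    (h1 : ∀ h, Φ h * (1 + S (h + 1)) = C ((2 * h + 1) ^ 2) * (1 - S h))
    (h2 : ∀ h, S h = X * (Φ (-h) - Φ h)) (h3 : ∀ h, S (-h) = -S h)
    (h4 : ∀ h, constantCoeff (S h) = 0) : K 0 = (1 + S 1) * K 1 := by
  have hc : ∀ h, constantCoeff (K h) = 1 := by
    intro h
    rw [hK h]
    simp
  set e : ℕ → ℤ⟦X⟧ := fun h => S h + C (((2 * h + 1 : ℕ) : ℤ) ^ 2) * X * K (h + 1) -
    X * K h * Φ (-h) with he
  have hrel : ∀ h : ℕ, e h * (1 + S (h + 1)) =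
      X * (C (((2 * h + 1 : ℕ) : ℤ) ^ 2) * K h * K (h + 1) * (1 - S h) * e (h + 1)) := by
    intro h
    have a1 := hK h
    have a2 := hK (h + 1)
    have a3 := h1 h
    have a4 := h2 h
    have a5 := h1 (-(h : ℤ) - 1)
    have a6 : C ((2 * (-(h : ℤ) - 1) + 1) ^ 2) = C (((2 * h + 1 : ℕ) : ℤ) ^ 2) := by
      congr 1
      push_cast
      ring
    have a7 : (-(h : ℤ) - 1) + 1 = -h := by ring
    have a8 : (-(h : ℤ) - 1) = -((h : ℤ) + 1) := by ring
    have a9 : C ((2 * (h : ℤ) + 1) ^ 2) = C (((2 * h + 1 : ℕ) : ℤ) ^ 2) := by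
      congr 1
    rw [a6, a7, a8, h3, h3] at a5
    rw [a9] at a3
    simp only [he]
    push_cast at a1 a2 a3 a5 ⊢
    set b := C ((2 * (h : ℤ) + 1) ^ 2) with hb
    set b' := C ((2 * ((h : ℤ) + 1) + 1) ^ 2) with hb'
    set k := K h
    set k' := K (h + 1)
    set k'' := K (h + 1 + 1)
    set s := S h
    set s' := S (h + 1)
    set φ := Φ h
    set φm := Φ (-h)
    set φm' := Φ (-((h : ℤ) + 1))
    linear_combination (1 + s') * k * a4 - (1 + s') * (s + b * X * k') * a1 - X * k * a3 +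
      X * b * k * (1 - s) * a2 + X ^ 2 * b * k * k' ^ 2 * a5
  have hunit : ∀ h : ℤ, ∃ v, (1 + S h) * v = 1 := by
    intro h
    have : IsUnit (1 + S h) := by
      rw [PowerSeries.isUnit_iff_constantCoeff, map_add, map_one, h4, add_zero]
      exact isUnit_one
    exact this.exists_right_inv
  have hdvd : ∀ n h : ℕ, (X : ℤ⟦X⟧) ^ n ∣ e h := by
    intro n
    induction n with
    | zero => intro h; rw [pow_zero]; exact one_dvd _
    | succ n ih =>
      intro h
      obtain ⟨v, hv⟩ := hunit (h + 1)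
      obtain ⟨c, hc'⟩ := ih (h + 1)
      refine ⟨C (((2 * h + 1 : ℕ) : ℤ) ^ 2) * K h * K (h + 1) * (1 - S h) * c * v, ?_⟩
      have a1 := hrel h
      rw [hc'] at a1
      linear_combination v * a1 - e h * hv
  have he0 : e 0 = 0 := by
    ext n
    rw [map_zero]
    exact (X_pow_dvd_iff.1 (hdvd (n + 1) 0)) n (Nat.lt_succ_self n)
  have hS0 : S 0 = 0 := by
    have h5 := h3 0
    rw [neg_zero] at h5
    ext n
    have h6 := congrArg (coeff n) h5
    rw [map_neg] at h6
    rw [map_zero]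
    omega
  have hP := h1 0
  rw [hS0] at hP
  simp only [he] at he0
  rw [Nat.cast_zero, hS0, neg_zero] at he0
  have h7 : (X : ℤ⟦X⟧) * (K 1 - K 0 * Φ 0) = 0 := by
    have h8 : C (((2 * 0 + 1 : ℕ) : ℤ) ^ 2) = (1 : ℤ⟦X⟧) := by simp
    rw [h8, zero_add] at he0
    linear_combination he0
  have h8 : K 1 = K 0 * Φ 0 := by
    rcases mul_eq_zero.1 h7 with h9 | h9
    · exact absurd h9 X_ne_zero
    · linear_combination h9
  have h9 : C ((2 * 0 + 1 : ℤ) ^ 2) = (1 : ℤ⟦X⟧) := by simp
  rw [h9, zero_add] at hP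
  linear_combination (1 + S 1) * h8.symm - K 0 * hP

end Pool.Agent.Morse
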