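import Pool.Agent.Morse.Dyck

/-!
Morse link numbers (MP_cd2f9b_nt): a fast recursion, and `L 343` modulo `2^32`.
-/

set_option autoImplicit false

open Finset PowerSeries

namespace Pool.Agent.Morse

/-- paths from height `0` to height `2i` -/
noncomputable def Ei (i : ℕ) : ℤ⟦X⟧ := X ^ i * ∏ j ∈ range (2 * i + 1), KK j

/-- paths from height `0` to height `2i+1` -/
noncomputable def Oi (i : ℕ) : ℤ⟦X⟧ := X ^ i * ∏ j ∈ range (2 * i + 2), KK j

lemma Oi_eq (i : ℕ) : Oi i = Ei i + C (((3 + 4 * i : ℕ) : ℤ) ^ 2) * Ei (i + 1) := by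
  have h := tails_KK (2 * i + 1)
  have h1 : (2 * (2 * i + 1) + 1 : ℕ) = 3 + 4 * i := by ring
  rw [h1] at h
  rw [Oi, Ei, Ei, show 2 * (i + 1) + 1 = 2 * i + 1 + 1 + 1 by ring,
    show 2 * i + 2 = 2 * i + 1 + 1 by ring, prod_range_succ _ (2 * i + 1 + 1),
    prod_range_succ _ (2 * i + 1)]
  linear_combination (X ^ i * ∏ j ∈ range (2 * i + 1), KK j) * h

lemma Ei_succ (i : ℕ) : Ei (i + 1) = X * (Oi i + C (((5 + 4 * i : ℕ) : ℤ) ^ 2) * Oi (i + 1)) := by
  have h := tails_KK (2 * i + 2)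
  have h1 : (2 * (2 * i + 2) + 1 : ℕ) = 5 + 4 * i := by ring
  rw [h1] at h
  rw [Oi, Ei, Oi, show 2 * (i + 1) + 2 = 2 * i + 2 + 1 + 1 by ring,
    show 2 * (i + 1) + 1 = 2 * i + 2 + 1 by ring, prod_range_succ _ (2 * i + 2 + 1),
    prod_range_succ _ (2 * i + 2)]
  linear_combination (X ^ (i + 1) * ∏ j ∈ range (2 * i + 2), KK j) * h

lemma Ei_zero : Ei 0 = 1 + X * Oi 0 := by
  have h := tails_KK 0
  have h1 : C (((2 * 0 + 1 : ℕ) : ℤ) ^ 2) = (1 : ℤ⟦X⟧) := by simp
  rw [h1] at h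
  rw [Ei, Oi]
  simp only [mul_zero, zero_add, prod_range_succ, prod_range_zero, pow_zero, one_mul]
  linear_combination h

/-- one pass -/
def go (M : ℕ) : ℕ → List ℕ → List ℕ
  | _, [] => []
  | c, a :: l => ((a + c * c * l.headD 0) % M) :: go M (c + 4) l

/-- one step -/
def stepE (M : ℕ) (l : List ℕ) : List ℕ := (go M 3 l).headD 0 :: go M 5 (go M 3 l)

/-- all steps -/
def run (M : ℕ) : ℕ → List ℕ
  | 0 => [1]
  | n + 1 => stepE M (run M n)

lemma headD_eq (l : List ℕ) : l.headD 0 = l.getD 0 0 := by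
  cases l <;> rfl

lemma go_getD (M c : ℕ) (l : List ℕ) (i : ℕ) : (((go M c l).getD i 0 : ℕ) : ZMod M) =
    (l.getD i 0 : ℕ) + ((c + 4 * i : ℕ) : ZMod M) ^ 2 * (l.getD (i + 1) 0 : ℕ) := by
  induction l generalizing c i with
  | nil => simp [go]
  | cons a l ih =>
    cases i with
    | zero =>
      rw [go, List.getD_cons_zero, List.getD_cons_zero, List.getD_cons_succ, ZMod.natCast_mod,
        headD_eq]
      push_cast
      ring
    | succ i =>
      rw [go, List.getD_cons_succ, List.getD_cons_succ, List.getD_cons_succ, ih]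
      push_cast
      ring

lemma run_getD (M n i : ℕ) : (((run M n).getD i 0 : ℕ) : ZMod M) =
    ((coeff n (Ei i) : ℤ) : ZMod M) := by
  induction n generalizing i with
  | zero =>
    cases i with
    | zero => simp [run, Ei, KK, PP_zero]
    | succ i =>
      rw [Ei_succ, coeff_zero_X_mul]
      simp [run]
  | succ n ih =>
    have hO : ∀ i, (((go M 3 (run M n)).getD i 0 : ℕ) : ZMod M) = ((coeff n (Oi i) : ℤ) : ZMod M) := by
      intro i
      rw [go_getD, ih, ih, Oi_eq, map_add, coeff_C_mul]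
      push_cast
      ring
    cases i with
    | zero =>
      rw [run, stepE, List.getD_cons_zero, headD_eq, hO, Ei_zero, map_add, coeff_succ_X_mul,
        coeff_one, if_neg (Nat.succ_ne_zero n), zero_add]
    | succ i =>
      rw [run, stepE, List.getD_cons_succ, go_getD, hO, hO, Ei_succ, coeff_succ_X_mul, map_add,
        coeff_C_mul]
      push_cast
      ring

lemma run_morse (M n : ℕ) : (((run M n).headD 0 : ℕ) : ZMod M) = ((morse n : ℤ) : ZMod M) := by
  rw [headD_eq, run_getD, ← morse_coeff]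
  simp [Ei]

set_option maxRecDepth 100000 in
lemma run_343 : (run (2 ^ 32) 343).headD 0 = 490942600 := by decide +kernel

set_option maxRecDepth 100000 in
lemma fac_343 : ((Nat.factorial (2 * 343) / (Nat.factorial 343 * Nat.factorial 343)) /
    (343 + 1)) % 2 ^ 32 = 299184264 := by decide +kernel

lemma catalan_formula (n : ℕ) : catalan n =
    (Nat.factorial (2 * n) / (Nat.factorial n * Nat.factorial n)) / (n + 1) := by
  rw [catalan_eq_centralBinom_div, Nat.centralBinom_eq_two_mul_choose,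
    Nat.choose_eq_factorial_div_factorial (by omega), show 2 * n - n = n by omega]

lemma catalan_343 : (catalan 343 : ℤ) % 2 ^ 32 = 299184264 := by
  have h2 := fac_343
  rw [← catalan_formula 343] at h2
  have h3 : ((catalan 343 % 2 ^ 32 : ℕ) : ℤ) = 299184264 := by
    rw [h2]
    rfl
  rw [← h3, Int.natCast_mod]
  rfl

lemma morse_343 : morse 343 % 2 ^ 32 = 490942600 := by
  have h := run_morse (2 ^ 32) 343
  rw [run_343] at h
  have h2 : ((490942600 : ℤ) : ZMod (2 ^ 32)) = ((morse 343 : ℤ) : ZMod (2 ^ 32)) := by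
    rw [← h]
    push_cast
    rfl
  rw [ZMod.intCast_eq_intCast_iff] at h2
  have h3 := h2.symm
  rw [Int.ModEq] at h3
  norm_num at h3 ⊢
  exact h3

lemma val_343 : padicValInt 2 (morse 343 - catalan 343) = 17 := by
  obtain ⟨q, hq⟩ : ∃ q : ℤ, morse 343 - catalan 343 = 2 ^ 17 * (1463 + 2 * q) := by
    have h1 := morse_343
    have h2 := catalan_343
    obtain ⟨a, ha⟩ : ∃ a : ℤ, morse 343 = 490942600 + 2 ^ 32 * a :=
      ⟨morse 343 / 2 ^ 32, by rw [← h1, Int.emod_add_mul_ediv]⟩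
    obtain ⟨b, hb⟩ : ∃ b : ℤ, (catalan 343 : ℤ) = 299184264 + 2 ^ 32 * b :=
      ⟨(catalan 343 : ℤ) / 2 ^ 32, by rw [← h2, Int.emod_add_mul_ediv]⟩
    exact ⟨2 ^ 14 * (a - b), by rw [ha, hb]; ring⟩
  rw [hq]
  have h3 : (1463 + 2 * q : ℤ) ≠ 0 := by omega
  rw [padicValInt.mul (by norm_num) h3]
  have h4 : padicValInt 2 (1463 + 2 * q) = 0 := by
    apply padicValInt.eq_zero_of_not_dvd
    push_cast
    omega
  have h5 : padicValInt 2 (2 ^ 17 : ℤ) = 17 := by
    rw [padicValInt]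
    have : (2 ^ 17 : ℤ).natAbs = 2 ^ 17 := by norm_num
    rw [this, padicValNat.prime_pow]
  rw [h4, h5]

end Pool.Agent.Morse
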