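import Pool.Agent.Morse.Coeff

/-!
Morse link numbers (MP_cd2f9b_nt): the 2-adic part.
-/

set_option autoImplicit false

open Finset

namespace Pool.Agent.Morse

/-- the 2-adic inverse of the odd number `od j` -/
lemma exists_od_inv (j : ℕ) : ∃ w : ℤ_[2], (od j : ℤ_[2]) * w = 1 := by
  have h : IsUnit ((od j : ℕ) : ℤ_[2]) := by
    rw [PadicInt.isUnit_iff, PadicInt.norm_natCast_eq_one_iff, Nat.coprime_two_left]
    exact od_odd j
  exact h.exists_right_inv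

/-- inverse of the odd double factorial -/
noncomputable def wj (j : ℕ) : ℤ_[2] := (exists_od_inv j).choose

lemma wj_spec (j : ℕ) : (od j : ℤ_[2]) * wj j = 1 := (exists_od_inv j).choose_spec

lemma wj_one : wj 1 = 1 := by
  have := wj_spec 1
  simpa [od] using this

/-- the function `g` -/
noncomputable def gg (φ : ℕ → ℤ) (n : ℕ) : ℤ_[2] :=
  ∑ j ∈ range (n + 1), (φ j : ℤ_[2]) * wj j * n.descFactorial j

lemma gg_eq (φ : ℕ → ℤ) {n N : ℕ} (h : n ≤ N) :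
    gg φ n = ∑ j ∈ range (N + 1), (φ j : ℤ_[2]) * wj j * n.descFactorial j := by
  rw [gg]
  refine Finset.sum_subset (range_subset_range.2 (by omega)) fun j _ hj => ?_
  rw [mem_range, not_lt] at hj
  rw [Nat.descFactorial_eq_zero_iff_lt.2 (by omega)]
  simp

lemma descFactorial_sub (n m j : ℕ) : ∃ c : ℤ,
    (n.descFactorial j : ℤ) - m.descFactorial j = (n - m) * c := by
  have h := Polynomial.sub_dvd_eval_sub (n : ℤ) (m : ℤ) (descPochhammer ℤ j)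
  rw [descPochhammer_eval_eq_descFactorial, descPochhammer_eval_eq_descFactorial] at h
  exact h

lemma gg_sub {φ ψ : ℕ → ℤ} (h1 : φ 1 = 1 + 2 * ψ 1) (h2 : ∀ j, φ (j + 2) = 2 * ψ (j + 2))
    (n m : ℕ) : ∃ e : ℤ_[2], gg φ n - gg φ m = ((n : ℤ_[2]) - m) * (1 + 2 * e) := by
  choose c hc using descFactorial_sub n m
  set N := max n m + 1 with hN
  rw [gg_eq φ (show n ≤ N by omega), gg_eq φ (show m ≤ N by omega), ← Finset.sum_sub_distrib]
  have hterm : ∀ j, (φ j : ℤ_[2]) * wj j * n.descFactorial j - φ j * wj j * m.descFactorial j =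
      ((n : ℤ_[2]) - m) * (φ j * wj j * c j) := by
    intro j
    have h3 := congrArg (fun z : ℤ => (z : ℤ_[2])) (hc j)
    push_cast at h3
    linear_combination (φ j * wj j : ℤ_[2]) * h3
  rw [Finset.sum_congr rfl fun j _ => hterm j, ← Finset.mul_sum]
  obtain ⟨M, hM⟩ : ∃ M, N + 1 = M + 2 := ⟨N - 1, by omega⟩
  rw [hM, Finset.sum_range_succ', Finset.sum_range_succ']
  have hc0 : ((n : ℤ) - m) * c 0 = 0 := by rw [← hc 0]; simp
  have hc1 : ((n : ℤ) - m) * c 1 = (n : ℤ) - m := by rw [← hc 1]; simp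
  have hc0' := congrArg (fun z : ℤ => (z : ℤ_[2])) hc0
  have hc1' := congrArg (fun z : ℤ => (z : ℤ_[2])) hc1
  push_cast at hc0' hc1'
  refine ⟨∑ j ∈ range M, (ψ (j + 2) : ℤ_[2]) * wj (j + 2) * c (j + 2) + ψ 1, ?_⟩
  have h3 : ∀ j, (φ (j + 2) : ℤ_[2]) * wj (j + 2) * c (j + 2) =
      2 * (ψ (j + 2) * wj (j + 2) * c (j + 2)) := by
    intro j
    rw [h2]
    push_cast
    ring
  have h4 : (φ 1 : ℤ_[2]) = 1 + 2 * ψ 1 := by
    rw [h1]
    push_cast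
    ring
  simp only [zero_add]
  rw [show (∑ j ∈ range M, (φ (j + 1 + 1) : ℤ_[2]) * wj (j + 1 + 1) * c (j + 1 + 1)) =
    2 * ∑ j ∈ range M, (ψ (j + 2) : ℤ_[2]) * wj (j + 2) * c (j + 2) from by
      rw [Finset.mul_sum]; exact Finset.sum_congr rfl fun j _ => h3 j]
  rw [h4, wj_one]
  linear_combination (φ 0 * wj 0 : ℤ_[2]) * hc0' + (1 + 2 * ψ 1 : ℤ_[2]) * hc1'

lemma two_dvd_or (c : ℤ_[2]) : (2 : ℤ_[2]) ∣ c ∨ (2 : ℤ_[2]) ∣ c + 1 := by
  obtain ⟨n, hn, hx⟩ := PadicInt.exists_mem_range c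
  rw [PadicInt.maximalIdeal_eq_span_p, Ideal.mem_span_singleton] at hx
  have h2 : ((2 : ℕ) : ℤ_[2]) = 2 := by norm_num
  rw [h2] at hx
  interval_cases n
  · left
    simpa using hx
  · right
    obtain ⟨d, hd⟩ := hx
    refine ⟨d + 1, ?_⟩
    push_cast at hd
    linear_combination hd

lemma norm_two_pow (k : ℕ) : ‖(2 : ℤ_[2]) ^ k‖ = (1 / 2 : ℝ) ^ k := by
  have h := PadicInt.norm_p_pow (p := 2) k
  have h2 : ((2 : ℕ) : ℤ_[2]) = 2 := by norm_num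
  rw [h2] at h
  rw [h]
  simp

lemma norm_le_of_dvd {k : ℕ} {x : ℤ_[2]} (h : (2 : ℤ_[2]) ^ k ∣ x) : ‖x‖ ≤ (1 / 2 : ℝ) ^ k := by
  obtain ⟨c, rfl⟩ := h
  rw [norm_mul, norm_two_pow]
  exact mul_le_of_le_one_right (by positivity) (PadicInt.norm_le_one c)

lemma norm_one_add (e : ℤ_[2]) : ‖1 + 2 * e‖ = 1 := by
  rw [← PadicInt.isUnit_iff]
  by_contra h
  rw [PadicInt.not_isUnit_iff, PadicInt.norm_lt_one_iff_dvd] at h
  have h2 : ((2 : ℕ) : ℤ_[2]) = 2 := by norm_num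
  rw [h2] at h
  have h3 : (2 : ℤ_[2]) ∣ 1 := by
    have := dvd_sub h (Dvd.intro e rfl : (2 : ℤ_[2]) ∣ 2 * e)
    rwa [add_sub_cancel_right] at this
  have h4 := isUnit_of_dvd_one h3
  rw [PadicInt.isUnit_iff] at h4
  have h5 := norm_two_pow 1
  rw [pow_one, h4] at h5
  norm_num at h5

theorem exists_alpha {φ ψ : ℕ → ℤ} (h1 : φ 1 = 1 + 2 * ψ 1)
    (h2 : ∀ j, φ (j + 2) = 2 * ψ (j + 2)) :
    ∃ α : ℤ_[2], ∀ n : ℕ, ‖gg φ n‖ = ‖(n : ℤ_[2]) - α‖ := by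
  have step : ∀ (k : ℕ) (n : {n : ℕ // (2 : ℤ_[2]) ^ k ∣ gg φ n}),
      ∃ m : {m : ℕ // (2 : ℤ_[2]) ^ (k + 1) ∣ gg φ m},
        ‖((m : ℕ) : ℤ_[2]) - ((n : ℕ) : ℤ_[2])‖ ≤ (1 / 2 : ℝ) ^ k := by
    rintro k ⟨n, c, hc⟩
    rcases two_dvd_or c with h | h
    · obtain ⟨d, hd⟩ := h
      refine ⟨⟨n, d, ?_⟩, ?_⟩
      · rw [hc, hd]
        ring
      · rw [sub_self, norm_zero]
        positivity
    · obtain ⟨d, hd⟩ := h
      obtain ⟨e, he⟩ := gg_sub h1 h2 (n + 2 ^ k) n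
      have h3 : (((n + 2 ^ k : ℕ) : ℤ_[2]) - n) = 2 ^ k := by
        push_cast
        ring
      rw [h3, hc] at he
      refine ⟨⟨n + 2 ^ k, d + e, ?_⟩, ?_⟩
      · linear_combination he + 2 ^ k * hd
      · rw [h3, norm_two_pow]
  choose st hst using step
  set a : (k : ℕ) → {n : ℕ // (2 : ℤ_[2]) ^ k ∣ gg φ n} := fun k =>
    Nat.rec ⟨0, by rw [pow_zero]; exact one_dvd _⟩ (fun k n => st k n) k with ha
  have hsucc : ∀ k, a (k + 1) = st k (a k) := fun k => rfl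
  have hcauchy : CauchySeq (fun k => ((a k : ℕ) : ℤ_[2])) := by
    refine cauchySeq_of_le_geometric (1 / 2) 1 (by norm_num) fun k => ?_
    rw [dist_comm, dist_eq_norm, one_mul, hsucc]
    exact hst k (a k)
  obtain ⟨α, hα⟩ := cauchySeq_tendsto_of_complete hcauchy
  refine ⟨α, fun n => ?_⟩
  have hg0 : Filter.Tendsto (fun k => gg φ (a k)) Filter.atTop (nhds 0) := by
    rw [tendsto_zero_iff_norm_tendsto_zero]
    refine squeeze_zero (fun _ => norm_nonneg _) (fun k => norm_le_of_dvd (a k).2) ?_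
    exact tendsto_pow_atTop_nhds_zero_of_lt_one (by norm_num) (by norm_num)
  have hl : Filter.Tendsto (fun k => ‖gg φ n - gg φ (a k)‖) Filter.atTop (nhds ‖gg φ n‖) := by
    have := (tendsto_const_nhds (x := gg φ n)).sub hg0
    rw [sub_zero] at this
    exact this.norm
  have hr : Filter.Tendsto (fun k => ‖(n : ℤ_[2]) - ((a k : ℕ) : ℤ_[2])‖) Filter.atTop
      (nhds ‖(n : ℤ_[2]) - α‖) := ((tendsto_const_nhds (x := (n : ℤ_[2]))).sub hα).norm
  have heq : ∀ k, ‖gg φ n - gg φ (a k)‖ = ‖(n : ℤ_[2]) - ((a k : ℕ) : ℤ_[2])‖ := by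
    intro k
    obtain ⟨e, he⟩ := gg_sub h1 h2 n (a k)
    rw [he, norm_mul, norm_one_add, mul_one]
  simp_rw [heq] at hl
  exact tendsto_nhds_unique hl hr

end Pool.Agent.Morse
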