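import Pool.Agent.Morse.Link

/-!
Morse link numbers (MP_cd2f9b_nt): the structure theorem
`L = C + 4 t φ(2 X t²) - 4 H(4X)` with `t = (1 - 4X)^{-1/2}` and `φ ≡ 1 + X mod 2`.
-/

set_option autoImplicit false

open PowerSeries

namespace Pool.Agent.Morse

/-- Catalan series over the integers -/
noncomputable def cat : ℤ⟦X⟧ := PowerSeries.mk fun n => (catalan n : ℤ)

/-- central binomial series over the integers -/
noncomputable def cb : ℤ⟦X⟧ := PowerSeries.mk fun n => (n.centralBinom : ℤ)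

lemma cat_eq : cat = 1 + X * cat ^ 2 := by
  have h := congrArg (PowerSeries.map (Nat.castRingHom ℤ)) catalanSeries_sq_mul_X_add_one
  have h2 : PowerSeries.map (Nat.castRingHom ℤ) catalanSeries = cat := by
    ext n
    simp [cat]
  rw [map_add, map_mul, map_pow, map_one, map_X, h2] at h
  linear_combination (-1 : ℤ⟦X⟧) * h

lemma D_sq : (1 - 2 * X * cat) ^ 2 = 1 - 4 * (X : ℤ⟦X⟧) := by
  linear_combination (-4 * X) * cat_eq

lemma cb_mul : cb * (1 - 2 * X * cat) = 1 := by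
  have h1 : PowerSeries.derivative ℤ (X * cat) = cb := by
    ext n
    rw [coeff_derivative, coeff_succ_X_mul, cat, cb, coeff_mk, coeff_mk,
      ← succ_mul_catalan_eq_centralBinom]
    push_cast
    ring
  have h2 := congrArg (PowerSeries.derivative ℤ) D_sq
  have h3 : PowerSeries.derivative ℤ (1 - 2 * X * cat) = -(2 * cb) := by
    have : (1 - 2 * X * cat : ℤ⟦X⟧) = 1 - (2 : ℤ) • (X * cat) := by
      rw [zsmul_eq_mul]
      push_cast
      ring
    rw [this, map_sub, map_zsmul, h1, Derivation.map_one_eq_zero, zero_sub, zsmul_eq_mul]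
    push_cast
    ring
  have h4 : PowerSeries.derivative ℤ (1 - 4 * (X : ℤ⟦X⟧)) = -4 := by
    have : (1 - 4 * (X : ℤ⟦X⟧)) = 1 - (4 : ℤ) • X := by
      rw [zsmul_eq_mul]
      push_cast
      ring
    rw [this, map_sub, map_zsmul, Derivation.map_one_eq_zero, zero_sub, zsmul_eq_mul]
    have h5 : PowerSeries.derivative ℤ (X : ℤ⟦X⟧) = 1 := by
      ext n
      rw [coeff_derivative, coeff_X, coeff_one]
      split_ifs with h6 h7 <;> simp_all
    rw [h5]
    push_cast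
    ring
  rw [Derivation.leibniz_pow, h3, h4] at h2
  have h6 : (4 : ℤ⟦X⟧) * (cb * (1 - 2 * X * cat) - 1) = 0 := by
    simp only [Nat.add_one_sub_one, pow_one, smul_eq_mul, nsmul_eq_mul] at h2
    push_cast at h2
    linear_combination (-1 : ℤ⟦X⟧) * h2
  have h7 : (4 : ℤ⟦X⟧) ≠ 0 := by
    have h8 : (4 : ℤ⟦X⟧) = C (4 : ℤ) := by rw [map_ofNat]
    rw [h8, Ne, ← map_zero (C (R := ℤ))]
    intro h9
    have := C_injective h9
    norm_num at this
  rcases mul_eq_zero.1 h6 with h8 | h8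
  · exact absurd h8 h7
  · linear_combination h8

lemma cb_sq : cb ^ 2 * (1 - 4 * X) = 1 := by
  have h1 := cb_mul
  have h2 := D_sq
  linear_combination (cb * (1 - 2 * X * cat) + 1) * h1 - cb ^ 2 * h2

/-- substitution as a ring homomorphism -/
noncomputable def sig (a : ℤ⟦X⟧) (ha : constantCoeff a = 0) : ℤ⟦X⟧ →+* ℤ⟦X⟧ :=
  (PowerSeries.substAlgHom (R := ℤ) (HasSubst.of_constantCoeff_zero' ha)).toRingHom

lemma sig_apply (a : ℤ⟦X⟧) (ha : constantCoeff a = 0) (f : ℤ⟦X⟧) : sig a ha f = f.subst a := by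
  rw [sig]
  show (PowerSeries.substAlgHom (R := ℤ) (HasSubst.of_constantCoeff_zero' ha)) f = f.subst a
  rw [coe_substAlgHom]

lemma sig_X (a : ℤ⟦X⟧) (ha : constantCoeff a = 0) : sig a ha X = a := by
  rw [sig_apply, subst_X (HasSubst.of_constantCoeff_zero' ha)]

lemma sig_C (a : ℤ⟦X⟧) (ha : constantCoeff a = 0) (r : ℤ) : sig a ha (C r) = C r := by
  have : (C r : ℤ⟦X⟧) = (r : ℤ⟦X⟧) := by simp
  rw [this, map_intCast]

lemma sig_four (H : ℤ⟦X⟧) (h : constantCoeff (4 * X : ℤ⟦X⟧) = 0) :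
    sig (4 * X) h H = rescale 4 H := by
  have h1 : (4 * X : ℤ⟦X⟧) = (4 : ℤ) • X := by
    rw [zsmul_eq_mul]
    push_cast
    ring
  rw [sig_apply, rescale_eq_subst]
  congr 1

lemma sig_sig (a b : ℤ⟦X⟧) (ha : constantCoeff a = 0) (hb : constantCoeff b = 0)
    (hab : constantCoeff (sig b hb a) = 0) (f : ℤ⟦X⟧) :
    sig b hb (sig a ha f) = sig (sig b hb a) hab f := by
  rw [sig_apply, sig_apply, sig_apply, sig_apply]
  exact subst_comp_subst_apply (HasSubst.of_constantCoeff_zero' ha)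
    (HasSubst.of_constantCoeff_zero' hb) f

lemma constantCoeff_Y : constantCoeff (2 * X * cb ^ 2 : ℤ⟦X⟧) = 0 := by
  simp

lemma ne_zero_num (n : ℤ) (hn : n ≠ 0) : (C n : ℤ⟦X⟧) ≠ 0 := by
  rw [Ne, ← map_zero (C (R := ℤ))]
  intro h
  exact hn (C_injective h)

/-- the quadratic equation -/
lemma quad {K : ℕ → ℤ⟦X⟧} (hK : Tails K) : ∃ H : ℤ⟦X⟧, constantCoeff H = 1 ∧
    X * (K 0) ^ 2 = (1 - 8 * X * rescale 4 H) * (K 0 - 1) := by
  obtain ⟨S, Φ, h1, h2, h3, h4, H, hH, hS⟩ := exists_system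
  have h5 := key_relation hK h1 h2 h3 h4
  have h6 := hK 0
  have h7 : C (((2 * 0 + 1 : ℕ) : ℤ) ^ 2) = (1 : ℤ⟦X⟧) := by simp
  rw [h7, zero_add] at h6
  refine ⟨H, hH, ?_⟩
  linear_combination (-(1 + S 1)) * h6 + X * K 0 * h5 + (K 0 - 1) * hS

theorem struct {K : ℕ → ℤ⟦X⟧} (hK : Tails K) : ∃ H φ ψ : ℤ⟦X⟧, constantCoeff H = 1 ∧
    φ = 1 + X + 2 * ψ ∧
    K 0 = cat + 4 * cb * sig (2 * X * cb ^ 2) constantCoeff_Y φ - 4 * rescale 4 H := by
  obtain ⟨H, hH, hI⟩ := quad hK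
  obtain ⟨v, hv⟩ : ∃ v : ℤ⟦X⟧, (1 + 2 * X) * v = 1 := by
    have : IsUnit (1 + 2 * X : ℤ⟦X⟧) := by
      rw [PowerSeries.isUnit_iff_constantCoeff]
      simp
    exact this.exists_right_inv
  have hw : constantCoeff (2 * X * v : ℤ⟦X⟧) = 0 := by simp
  set χ := sig (2 * X * v) hw H with hχ
  set ρ := χ * (1 - X * v) - 2 * X * v * χ ^ 2 with hρ
  obtain ⟨φ, -, hφ⟩ := exists_fix (fun f : ℤ⟦X⟧ => ρ + 2 * X * f ^ 2) (fun _ => True) trivial
    (fun _ _ => trivial) (fun _ _ => trivial) (fun f g n _ _ hd => by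
      obtain ⟨e, he⟩ := hd
      refine ⟨2 * e * (f + g), ?_⟩
      linear_combination (2 * X * (f + g)) * he)
  obtain ⟨H', hH'⟩ : ∃ H' : ℤ⟦X⟧, H = 1 + X * H' := by
    refine ⟨PowerSeries.mk fun n => coeff (n + 1) H, ?_⟩
    ext n
    cases n with
    | zero =>
      rw [coeff_zero_eq_constantCoeff_apply, hH, map_add, coeff_zero_X_mul, coeff_one, if_pos rfl,
        add_zero]
    | succ n =>
      rw [map_add, coeff_succ_X_mul, coeff_mk, coeff_one, if_neg (Nat.succ_ne_zero n), zero_add]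
  set χ' := X * v * sig (2 * X * v) hw H' with hχ'
  have hχ2 : χ = 1 + 2 * χ' := by
    have h1 : χ = sig (2 * X * v) hw (1 + X * H') := by rw [hχ, ← hH']
    rw [h1, map_add, map_one, map_mul, sig_X, hχ']
    ring
  set ψ := -X + X ^ 2 * v + χ' * (1 - X * v) - X * v * χ ^ 2 + X * φ ^ 2 with hψ
  have hφψ : φ = 1 + X + 2 * ψ := by
    have h1 : ρ + 2 * X * φ ^ 2 = φ := hφ
    rw [hψ]
    linear_combination (-1 : ℤ⟦X⟧) * h1 + hρ + (1 - X * v) * hχ2 - X * hv
  refine ⟨H, φ, ψ, hH, hφψ, ?_⟩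
  set Y : ℤ⟦X⟧ := 2 * X * cb ^ 2 with hY
  set σ' := sig Y constantCoeff_Y with hsg
  have hsgX : σ' X = 2 * X * cb ^ 2 := sig_X _ _
  have hcb := cb_sq
  have hsgv : cb ^ 2 * σ' v = 1 := by
    have h1 := congrArg σ' hv
    rw [map_mul, map_add, map_one, map_mul, map_ofNat, hsgX] at h1
    linear_combination h1 + σ' v * hcb
  have hsgw : σ' (2 * X * v) = 4 * X := by
    rw [map_mul, map_mul, map_ofNat, hsgX]
    linear_combination 4 * X * hsgv
  have hsgq : σ' (X * v) = 2 * X := by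
    rw [map_mul, hsgX]
    linear_combination 2 * X * hsgv
  have h4X : constantCoeff (4 * X : ℤ⟦X⟧) = 0 := by simp
  have hgen : ∀ (a : ℤ⟦X⟧) (ha : constantCoeff a = 0), a = 4 * X → sig a ha H = rescale 4 H := by
    rintro _ _ rfl
    exact sig_four H _
  have hab : constantCoeff (sig Y constantCoeff_Y (2 * X * v)) = 0 := by
    rw [← hsg, hsgw, h4X]
  have hsgχ : σ' χ = rescale 4 H := by
    rw [hχ, hsg, sig_sig _ _ hw constantCoeff_Y hab]
    exact hgen _ _ hsgw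
  set Ĥ := rescale 4 H with hĤ
  have hp : σ' φ = σ' ρ + 2 * (2 * X * cb ^ 2) * (σ' φ) ^ 2 := by
    have h1 : ρ + 2 * X * φ ^ 2 = φ := hφ
    conv_lhs => rw [← h1]
    rw [map_add, map_mul, map_mul, map_pow, map_ofNat, hsgX]
  have hsgρ : σ' ρ = Ĥ * (1 - 2 * X) - 4 * X * Ĥ ^ 2 := by
    rw [hρ, map_sub, map_mul, map_sub, map_one, map_mul σ' (2 * X * v), map_pow, hsgw, hsgq, hsgχ]
  set P := σ' φ with hP
  rw [hsgρ] at hp
  set L' := cat + 4 * cb * P - 4 * Ĥ with hL'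
  have hD := D_sq
  have hcD := cb_mul
  have hq' : X * L' ^ 2 = (1 - 8 * X * Ĥ) * (L' - 1) := by
    have h1 : C (4 : ℤ) * X * (X * L' ^ 2 - (1 - 8 * X * Ĥ) * (L' - 1)) = 0 := by
      have h2 : C (4 : ℤ) = (4 : ℤ⟦X⟧) := by rw [map_ofNat]
      rw [h2, hL']
      have h3 : ((1 - 2 * X * cat) - 8 * X * cb * P) ^ 2 = (1 - 8 * X * Ĥ) ^ 2 -
          4 * X * (1 - 8 * X * Ĥ) := by
        linear_combination hD - 16 * X * P * hcD - 16 * X * hp
      linear_combination h3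
    rcases mul_eq_zero.1 h1 with h2 | h2
    · rcases mul_eq_zero.1 h2 with h3 | h3
      · exact absurd h3 (ne_zero_num 4 (by norm_num))
      · exact absurd h3 X_ne_zero
    · linear_combination h2
  have hfin : (K 0 - L') * (X * (K 0 + L') - (1 - 8 * X * Ĥ)) = 0 := by
    linear_combination hI - hq'
  rcases mul_eq_zero.1 hfin with h1 | h1
  · linear_combination h1
  · exfalso
    have h2 := congrArg constantCoeff h1
    simp at h2

end Pool.Agent.Morse
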