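import Pool.Agent.Morse.Padic

/-!
Morse link numbers (MP_cd2f9b_nt): valuations.
-/

set_option autoImplicit false

open Finset PowerSeries

namespace Pool.Agent.Morse

lemma norm_eq_half_pow {x : ℤ_[2]} (hx : x ≠ 0) : ‖x‖ = (1 / 2 : ℝ) ^ x.valuation := by
  rw [PadicInt.norm_eq_zpow_neg_valuation hx]
  simp

lemma valuation_eq_of_norm {x : ℤ_[2]} {k : ℕ} (h : ‖x‖ = (1 / 2 : ℝ) ^ k) :
    x ≠ 0 ∧ x.valuation = k := by
  have hx : x ≠ 0 := by
    intro h0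
    rw [h0, norm_zero] at h
    have : (0 : ℝ) < (1 / 2) ^ k := by positivity
    linarith
  refine ⟨hx, ?_⟩
  rw [norm_eq_half_pow hx] at h
  exact pow_right_injective₀ (by norm_num) (by norm_num) h

lemma valuation_intCast (k : ℤ) : ((k : ℤ) : ℤ_[2]).valuation = padicValInt 2 k := by
  have h1 : ((((k : ℤ) : ℤ_[2])) : ℚ_[2]).valuation = ((k : ℤ) : ℤ_[2]).valuation :=
    PadicInt.valuation_coe _
  rw [PadicInt.coe_intCast, Padic.valuation_intCast] at h1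
  exact_mod_cast h1.symm

lemma norm_centralBinom (n : ℕ) : ‖((n.centralBinom : ℕ) : ℤ_[2])‖ =
    (1 / 2 : ℝ) ^ (Nat.digits 2 n).sum := by
  have hne : ((n.centralBinom : ℕ) : ℤ_[2]) ≠ 0 := by
    exact_mod_cast Nat.centralBinom_ne_zero n
  rw [norm_eq_half_pow hne]
  congr 1
  have h1 : ((n.centralBinom : ℕ) : ℤ_[2]) = (((n.centralBinom : ℕ) : ℤ) : ℤ_[2]) := by
    push_cast
    rfl
  rw [h1, valuation_intCast, padicValInt.of_nat, Nat.centralBinom_eq_two_mul_choose]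
  have h2 := sub_one_mul_padicValNat_choose_eq_sub_sum_digits (p := 2) (k := n) (n := 2 * n)
    (by omega)
  have h3 : (Nat.digits 2 (2 * n)).sum = (Nat.digits 2 n).sum := by
    rcases Nat.eq_zero_or_pos n with rfl | hn
    · simp
    · rw [Nat.digits_base_mul (by norm_num) hn, List.sum_cons, zero_add]
  rw [h3, show 2 * n - n = n by omega] at h2
  omega

/-- The identity of Postnikov's conjecture at `n`. -/
def Ident (L : ℕ → ℤ) (α : ℤ_[2]) (n : ℕ) : Prop :=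
  (n : ℤ_[2]) ≠ α ∧ L n ≠ catalan n ∧
    padicValInt 2 (L n - catalan n) = (Nat.digits 2 n).sum + ((n : ℤ_[2]) - α).valuation + 2

theorem main_val {K : ℕ → ℤ⟦X⟧} (hK : Tails K) : ∃ α : ℤ_[2], ∀ n : ℕ,
    (n : ℤ_[2]) ≠ α → (Nat.digits 2 n).sum + ((n : ℤ_[2]) - α).valuation < 2 * n →
      Ident (fun n => coeff n (K 0)) α n := by
  obtain ⟨H, φ, ψ, h0, h1, h2, hL⟩ := coeff_struct hK
  obtain ⟨α, hα⟩ := exists_alpha h1 h2
  refine ⟨α, fun n hn hlt => ?_⟩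
  have hne : (n : ℤ_[2]) - α ≠ 0 := sub_ne_zero.2 hn
  have h4 : ((coeff n (K 0) - catalan n : ℤ) : ℤ_[2]) =
      4 * (n.centralBinom : ℤ_[2]) * gg φ n - 4 ^ (n + 1) * (H n : ℤ_[2]) := by
    rw [hL n, gg]
    push_cast
    rw [Finset.mul_sum, Finset.mul_sum]
    have h5 : ∀ j, (4 : ℤ_[2]) * (φ j * ((coeff n (cb * (2 * X * cb ^ 2) ^ j) : ℤ) : ℤ_[2])) =
        4 * n.centralBinom * (φ j * wj j * n.descFactorial j) := by
      intro j
      have h6 := congrArg (fun z : ℤ => (z : ℤ_[2])) (coeff_cb_pow n j)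
      push_cast at h6
      linear_combination (4 * φ j * wj j : ℤ_[2]) * h6 -
        (4 * φ j * ((coeff n (cb * (2 * X * cb ^ 2) ^ j) : ℤ) : ℤ_[2])) * wj_spec j
    rw [Finset.sum_congr rfl fun j _ => h5 j]
    ring
  have h5 : ‖4 * (n.centralBinom : ℤ_[2]) * gg φ n‖ =
      (1 / 2 : ℝ) ^ ((Nat.digits 2 n).sum + ((n : ℤ_[2]) - α).valuation + 2) := by
    have h6 : (4 : ℤ_[2]) = 2 ^ 2 := by norm_num
    rw [norm_mul, norm_mul, hα, norm_eq_half_pow hne, norm_centralBinom, h6, norm_two_pow]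
    ring
  have h6 : ‖(4 : ℤ_[2]) ^ (n + 1) * (H n : ℤ_[2])‖ <
      (1 / 2 : ℝ) ^ ((Nat.digits 2 n).sum + ((n : ℤ_[2]) - α).valuation + 2) := by
    have h7 : (4 : ℤ_[2]) ^ (n + 1) = 2 ^ (2 * (n + 1)) := by
      rw [pow_mul]
      norm_num
    rw [norm_mul, h7, norm_two_pow]
    calc (1 / 2 : ℝ) ^ (2 * (n + 1)) * ‖(H n : ℤ_[2])‖ ≤ (1 / 2 : ℝ) ^ (2 * (n + 1)) * 1 :=
          mul_le_mul_of_nonneg_left (PadicInt.norm_le_one _) (by positivity)
      _ = (1 / 2 : ℝ) ^ (2 * (n + 1)) := mul_one _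
      _ < _ := pow_lt_pow_right_of_lt_one₀ (by norm_num) (by norm_num) (by omega)
  have h7 : ‖((coeff n (K 0) - catalan n : ℤ) : ℤ_[2])‖ =
      (1 / 2 : ℝ) ^ ((Nat.digits 2 n).sum + ((n : ℤ_[2]) - α).valuation + 2) := by
    rw [h4, sub_eq_add_neg]
    rw [PadicInt.norm_add_eq_max_of_ne (by rw [norm_neg, h5]; exact h6.ne'), norm_neg, h5,
      max_eq_left h6.le]
  obtain ⟨h8, h9⟩ := valuation_eq_of_norm h7
  rw [valuation_intCast] at h9
  refine ⟨hn, fun h10 => h8 ?_, h9⟩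
  have h11 : coeff n (K 0) = catalan n := h10
  rw [h11, sub_self, Int.cast_zero]

end Pool.Agent.Morse
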